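import Pool.Agent.Lib.MP_821f63_lc.BinMs

/-! Counting the vectors that a short multiset serves three times. -/

namespace Pool.Agent.Lib.MP_821f63_lc

open Finset

variable {k : ℕ}

lemma le_map_val {J α : Type} [DecidableEq J] (g : J → α) (R R' : Multiset α) (A : Finset J)
    (h : R + R' ≤ A.val.map g) : ∃ T ⊆ A, T.val.map g = R ∧ R' ≤ (A \ T).val.map g := by
  induction R using Multiset.induction_on generalizing A with
  | empty => exact ⟨∅, empty_subset _, rfl, by simpa using h⟩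
  | cons x R ih =>
    obtain ⟨j, hj, rfl⟩ := Multiset.mem_map.1 (Multiset.mem_of_le h
      (Multiset.mem_add.2 (.inl (Multiset.mem_cons_self x R))))
    rw [← Multiset.cons_erase hj, Multiset.map_cons, Multiset.cons_add,
      Multiset.cons_le_cons_iff] at h
    obtain ⟨T, h1, h2, h3⟩ := ih (A.erase j) h
    have hT : j ∉ T := fun h => notMem_erase j A (h1 h)
    refine ⟨insert j T, insert_subset hj (h1.trans (erase_subset _ _)), ?_, ?_⟩
    · rw [insert_val_of_notMem hT, Multiset.map_cons, h2]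
    · rwa [sdiff_insert, ← erase_sdiff_comm]

section index

variable {J : Type} [Fintype J] [DecidableEq J] (g : J → Fin k → ZMod 2)

lemma sum_ind (T : Finset J) : ∑ j, (if j ∈ T then (1 : ZMod 2) else 0) • g j = ∑ j ∈ T, g j := by
  simp [ite_smul, sum_ite_mem]

lemma count_dual (S : Finset (Fin k → ZMod 2))
    (h : ∀ v ∈ S, ∃ T₁ T₂ T₃ : Finset J, Disjoint T₁ T₂ ∧ Disjoint T₁ T₃ ∧ Disjoint T₂ T₃ ∧
      ∑ j ∈ T₁, g j = v ∧ ∑ j ∈ T₂, g j = v ∧ ∑ j ∈ T₃, g j = v) :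
    #S ^ 3 ≤ 2 ^ (2 * Fintype.card J) := by
  choose! T₁ T₂ T₃ d1 d2 d3 s1 s2 s3 using h
  let ind : Finset J → J → ZMod 2 := fun T j => if j ∈ T then 1 else 0
  let Φ : (J → ZMod 2) → Fin k → ZMod 2 := fun c => ∑ j, c j • g j
  have Φa : ∀ c c', Φ (c + c') = Φ c + Φ c' := fun c c' => by
    simp [Φ, add_smul, sum_add_distrib]
  have Φi : ∀ T, Φ (ind T) = ∑ j ∈ T, g j := sum_ind g
  set Z := univ.filter fun c => Φ c = 0 with hZ
  have h1 : #(S ×ˢ Z) ≤ #(univ : Finset (J → ZMod 2)) := by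
    refine card_le_card_of_injOn (fun p => ind (T₁ p.1) + p.2) (fun _ _ => by simp) ?_
    rintro ⟨v, c⟩ hp ⟨w, d⟩ hq e
    simp only [coe_product, Set.mem_prod, mem_coe, hZ, mem_filter] at hp hq e
    have e1 := congrArg Φ e
    rw [Φa, Φa, Φi, Φi, s1 v hp.1, s1 w hq.1, hp.2.2, hq.2.2, add_left_inj] at e1
    subst e1
    rw [add_left_cancel e]
  have h2 : #S ≤ #(Z ×ˢ Z) := by
    refine card_le_card_of_injOn (fun v => (ind (T₁ v) + ind (T₂ v), ind (T₁ v) + ind (T₃ v)))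
      (fun v hv => ?_) fun v hv w hw e => ?_
    · simp [hZ, Φa, Φi, s1 v hv, s2 v hv, s3 v hv, add_self2]
    · have key : ∀ v ∈ S, (ind (T₁ v) + ind (T₂ v)) * (ind (T₁ v) + ind (T₃ v)) = ind (T₁ v) := by
        intro v hv
        funext j
        have a1 := fun h => disjoint_left.1 (d1 v hv) (h : j ∈ _)
        have a2 := fun h => disjoint_left.1 (d2 v hv) (h : j ∈ _)
        have a3 := fun h => disjoint_left.1 (d3 v hv) (h : j ∈ _)
        simp only [ind, Pi.mul_apply, Pi.add_apply]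
        split_ifs <;> simp_all
      obtain ⟨e1, e2⟩ := Prod.ext_iff.1 e
      simp only at e1 e2
      rw [← s1 v hv, ← s1 w hw, ← Φi, ← Φi, ← key v hv, ← key w hw, e1, e2]
  rw [card_product] at h1 h2
  have h3 : #(univ : Finset (J → ZMod 2)) = 2 ^ Fintype.card J := by simp
  calc #S ^ 3 = #S * #S * #S := by ring
    _ ≤ #S * #S * (#Z * #Z) := by gcongr
    _ = (#S * #Z) ^ 2 := by ring
    _ ≤ (2 ^ Fintype.card J) ^ 2 := by rw [← h3]; gcongr
    _ = _ := by rw [← pow_mul, mul_comm]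

lemma count_short (S : Finset (Fin k → ZMod 2)) (w : ℕ)
    (h : ∀ v ∈ S, ∃ T : Finset J, #T ≤ w ∧ ∑ j ∈ T, g j = v) :
    #S * 8 ^ (Fintype.card J - w) ≤ 9 ^ Fintype.card J := by
  choose! T h1 h2 using h
  have h3 : ∑ A : Finset J, 1 ^ #A * 8 ^ (Fintype.card J - #A) = (1 + 8) ^ Fintype.card J :=
    Fintype.sum_pow_mul_eq_add_pow J 1 8
  have hi : Set.InjOn T S := fun v hv u hu e => by rw [← h2 v hv, ← h2 u hu, e]
  calc #S * 8 ^ (Fintype.card J - w) ≤ ∑ v ∈ S, 1 ^ #(T v) * 8 ^ (Fintype.card J - #(T v)) := by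
        rw [← smul_eq_mul]
        refine card_nsmul_le_sum _ _ _ fun v hv => ?_
        rw [one_pow, one_mul]
        exact Nat.pow_le_pow_right (by norm_num) (Nat.sub_le_sub_left (h1 v hv) _)
    _ = ∑ A ∈ S.image T, 1 ^ #A * 8 ^ (Fintype.card J - #A) :=
        (sum_image (f := fun A : Finset J => 1 ^ #A * 8 ^ (Fintype.card J - #A)) hi).symm
    _ ≤ _ := (sum_le_sum_of_subset (subset_univ _)).trans h3.le

end index

/-- If more than half of the vectors are served three times by short parts of `p`, then `p` is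
long. -/
theorem count_main (p : Multiset (Fin k → ZMod 2)) (S : Finset (Fin k → ZMod 2)) (N : ℕ)
    (hS : 2 ^ (k - 1) ≤ #S)
    (h : ∀ v ∈ S, ∃ R₁ R₂ R₃ : Multiset (Fin k → ZMod 2), R₁ + (R₂ + R₃) ≤ p ∧
      R₁.sum = v ∧ R₂.sum = v ∧ R₃.sum = v ∧ R₁.card + R₂.card + R₃.card + 2 * N ≤ p.card) :
    11 * (k - 1) + 10 * N ≤ 10 * p.card := by
  induction p using Quotient.inductionOn with
  | _ l =>
  have hl : (univ.val.map l.get : Multiset _) = ⟦l⟧ := by
    rw [Fin.univ_val_map, List.ofFn_get]; rfl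
  have hP : Multiset.card (⟦l⟧ : Multiset _) = l.length := rfl
  rw [hP] at h ⊢
  have h' : ∀ v ∈ S, ∃ T₁ T₂ T₃ : Finset (Fin l.length), (Disjoint T₁ T₂ ∧ Disjoint T₁ T₃ ∧
      Disjoint T₂ T₃ ∧ ∑ j ∈ T₁, l.get j = v ∧ ∑ j ∈ T₂, l.get j = v ∧ ∑ j ∈ T₃, l.get j = v) ∧
      #T₁ + #T₂ + #T₃ + 2 * N ≤ l.length := fun v hv => by
    obtain ⟨R₁, R₂, R₃, h1, s1, s2, s3, h2⟩ := h v hv
    obtain ⟨T₁, -, rfl, a1⟩ := le_map_val l.get _ _ univ (hl ▸ h1)
    obtain ⟨T₂, b2, rfl, a2⟩ := le_map_val l.get _ _ _ a1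
    obtain ⟨T₃, b3, rfl, -⟩ := le_map_val l.get R₃ 0 _ (by rwa [add_zero])
    refine ⟨T₁, T₂, T₃, ⟨disjoint_sdiff.mono_right b2,
      disjoint_sdiff.mono_right (b3.trans sdiff_subset), disjoint_sdiff.mono_right b3,
      s1, s2, s3⟩, by simpa using h2⟩
  have c1 := count_dual l.get S fun v hv => by
    obtain ⟨T₁, T₂, T₃, h, -⟩ := h' v hv
    exact ⟨T₁, T₂, T₃, h⟩
  have c2 := count_short l.get S ((l.length - 2 * N) / 3) fun v hv => by
    obtain ⟨T₁, T₂, T₃, ⟨-, -, -, s1, s2, s3⟩, h⟩ := h' v hv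
    by_contra! hc
    have a1 := not_le.1 fun h => hc T₁ h s1
    have a2 := not_le.1 fun h => hc T₂ h s2
    have a3 := not_le.1 fun h => hc T₃ h s3
    omega
  obtain ⟨v, hv⟩ := card_pos.1 (lt_of_lt_of_le (by positivity) hS)
  obtain ⟨T₁, T₂, T₃, -, c0⟩ := h' v hv
  rw [Fintype.card_fin] at c1 c2
  have c3 : 2 * N ≤ l.length := by omega
  clear h h' hl hP c0 T₁ T₂ T₃
  generalize l.length = P at *
  have d1 : 2 ^ ((k - 1) * 3) ≤ 2 ^ (2 * P) := by
    rw [pow_mul]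
    exact (Nat.pow_le_pow_left hS 3).trans c1
  have d2 : 2 ^ ((k - 1 + 3 * (P - (P - 2 * N) / 3)) * 5) ≤ 2 ^ (16 * P) := by
    rw [pow_mul, pow_add, pow_mul, pow_mul]
    calc _ ≤ (9 ^ P) ^ 5 := Nat.pow_le_pow_left ((Nat.mul_le_mul_right _ hS).trans c2) 5
      _ = (9 ^ 5) ^ P := by rw [← pow_mul, ← pow_mul, mul_comm]
      _ ≤ _ := Nat.pow_le_pow_left (by norm_num) P
  rw [Nat.pow_le_pow_iff_right (by norm_num)] at d1 d2
  omega

end Pool.Agent.Lib.MP_821f63_lc
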