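import Pool.Agent.Lib.MP_821f63_lc.BinCnt

/-! Short binary codes serving each column `3 + 2 ^ k` times are close to the doubled simplex
code, hence long. -/

namespace Pool.Agent.Lib.MP_821f63_lc

open Finset Submodule
open Multiset (count)

variable {k t : ℕ} {s : Multiset (Fin k → ZMod 2)}

lemma srv_of_serves {n : ℕ} {G : Matrix (Fin k) (Fin n) (ZMod 2)} {v : Fin k → ZMod 2}
    (h : Serves G fun _ : Fin t => v) : Srv (univ.val.map G.col) v t := by
  obtain ⟨R, h1, h2⟩ := h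
  choose c hc using fun a => (mem_span_image_finset_iff_exists_fun' _).1 (h2 a)
  let T : Fin t → Finset (Fin n) := fun a => (R a).filter fun j => c a j = 1
  have hT : ((univ : Finset (Fin t)) : Set (Fin t)).PairwiseDisjoint T := fun a _ b _ hab =>
    (h1 a b hab).mono (filter_subset _ _) (filter_subset _ _)
  refine ⟨univ.val.map fun a => (T a).val.map G.col, by simp, ?_, fun R' hR' => ?_⟩
  · have h3 : (univ.disjiUnion T hT).val ≤ univ.val := val_le_iff.2 (subset_univ _)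
    have h4 := Multiset.map_le_map (f := G.col) h3
    rwa [disjiUnion_val, Multiset.map_bind] at h4
  · obtain ⟨a, -, rfl⟩ := Multiset.mem_map.1 hR'
    have h3 : ∀ x : ZMod 2, x = 1 ∨ x = 0 := by decide
    refine Eq.trans ?_ (hc a)
    change ∑ j ∈ T a, G.col j = _
    rw [sum_filter]
    refine sum_congr rfl fun j _ => ?_
    rcases h3 (c a j) with h | h <;> simp [h]

lemma weight_ge (hs : span (ZMod 2) {x | x ∈ s} = ⊤) (h : ∀ v ∈ s, v ≠ 0 → Srv s v t)
    {w : Fin k → ZMod 2} (hw : w ≠ 0) : t ≤ (s.filter fun y => w ⬝ᵥ y ≠ 0).card := by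
  obtain ⟨v, hv, hwv⟩ : ∃ v ∈ s, w ⬝ᵥ v ≠ 0 := by
    by_contra! hc
    refine hw (funext fun i => ?_)
    have h1 : ∀ u ∈ span (ZMod 2) {x | x ∈ s}, w ⬝ᵥ u = 0 := fun u hu => by
      induction hu using span_induction with
      | mem x hx => exact hc x hx
      | zero => simp
      | add x y _ _ hx hy => simp [hx, hy]
      | smul a x _ hx => simp [hx]
    simpa using h1 (Pi.single i 1) (hs ▸ mem_top)
  obtain ⟨L, h1, h2, h3⟩ := h v hv fun e => hwv (by simp [e])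
  have h4 : 1 * L.card ≤ _ := card_mul_le
    (f := fun R => (R.filter fun y => w ⬝ᵥ y ≠ 0).card) fun R hR => by
      by_contra! hc
      have h5 := Multiset.filter_eq_nil.1 (Multiset.card_eq_zero.1 (Nat.lt_one_iff.1 hc))
      refine hwv ?_
      rw [← h3 R hR]
      exact Multiset.sum_induction (fun u => w ⬝ᵥ u = 0) R (fun a b ha hb => by simp [ha, hb])
        (by simp) fun x hx => not_not.1 (h5 x hx)
  rw [card_filter_sum] at h4
  have h5 := Multiset.card_le_card (Multiset.filter_le_filter (fun y => w ⬝ᵥ y ≠ 0) h2)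
  omega

lemma half (x y : Fin k → ZMod 2) :
    2 * #{w ∈ ({w | w ⬝ᵥ x = 0} : Finset _) | w ⬝ᵥ y ≠ 0} ≤ #{w | w ⬝ᵥ x = 0} := by
  set H : Finset (Fin k → ZMod 2) := {w | w ⬝ᵥ x = 0} with hH
  rcases (H.filter fun w => w ⬝ᵥ y ≠ 0).eq_empty_or_nonempty with h | ⟨u, hu⟩
  · simp [h]
  have h1 := card_filter_add_card_filter_not (s := H) fun w => w ⬝ᵥ y ≠ 0
  have h2 : #{w ∈ H | w ⬝ᵥ y ≠ 0} ≤ #{w ∈ H | ¬w ⬝ᵥ y ≠ 0} := by
    refine card_le_card_of_injOn (· + u) (fun w hw => ?_) (add_left_injective u).injOn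
    have h3 : ∀ a b : ZMod 2, a ≠ 0 → b ≠ 0 → a + b = 0 := by decide
    simp only [hH, coe_filter, mem_filter, mem_univ, true_and, Set.mem_ofPred_eq] at hu hw ⊢
    simp [hu.1, hw.1, h3 _ _ hw.2 hu.2]
  omega

lemma plotkin (x : Fin k → ZMod 2) (s : Multiset (Fin k → ZMod 2)) :
    2 * ∑ w with w ⬝ᵥ x = 0, (s.filter fun y => w ⬝ᵥ y ≠ 0).card + count x s * #{w | w ⬝ᵥ x = 0} ≤
      s.card * #{w | w ⬝ᵥ x = 0} := by
  induction s using Multiset.induction_on with
  | empty => simp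
  | cons y s ih =>
    have h1 : ∀ w : Fin k → ZMod 2, ((y ::ₘ s).filter fun y => w ⬝ᵥ y ≠ 0).card =
        (s.filter fun y => w ⬝ᵥ y ≠ 0).card + if w ⬝ᵥ y ≠ 0 then 1 else 0 := fun w => by
      rw [Multiset.filter_cons]
      split_ifs <;> simp [add_comm]
    have h2 := half x y
    simp only [h1, sum_add_distrib, ← card_filter, Multiset.count_cons, Multiset.card_cons, add_mul]
    split_ifs with h
    · subst h
      rw [filter_false_of_mem (p := fun w => w ⬝ᵥ x ≠ 0) fun w hw => by simpa using hw, card_empty]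
      omega
    · omega

lemma count_le {μ : ℕ} (hk : 12 ≤ 2 ^ k) (hs : span (ZMod 2) {x | x ∈ s} = ⊤)
    (h : ∀ v ∈ s, v ≠ 0 → Srv s v (3 + μ * 2 ^ k)) (x : Fin k → ZMod 2) :
    2 * (3 + μ * 2 ^ k) + count x s ≤ s.card + (if x = 0 then 2 else 4) * μ + 1 := by
  have h1 := plotkin x s
  set H : Finset (Fin k → ZMod 2) := {w | w ⬝ᵥ x = 0} with hH
  have h2 : #(H.erase 0) • (3 + μ * 2 ^ k) ≤ ∑ w ∈ H, (s.filter fun y => w ⬝ᵥ y ≠ 0).card :=
    (card_nsmul_le_sum _ _ _ fun w hw => weight_ge hs h (mem_erase.1 hw).1).trans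
      (sum_le_sum_of_subset (erase_subset _ _))
  have h3 := half 0 x
  have h4 := card_filter_add_card_filter_not (s := univ) fun w : Fin k → ZMod 2 => w ⬝ᵥ x = 0
  simp only [dotProduct_zero, filter_true, card_univ, Fintype.card_pi, ZMod.card, prod_const,
    Fintype.card_fin, ne_eq, ← hH] at h3 h4
  rw [card_erase_of_mem (by simp [hH]), smul_eq_mul] at h2
  have h5 : 2 * 2 ^ k ≤ (if x = 0 then 2 else 4) * #H := by
    split_ifs with h0
    · simp [hH, h0]
    · omega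
  obtain ⟨m, hm⟩ : ∃ m, #H = m + 1 := ⟨#H - 1, by omega⟩
  rw [hm] at h1 h2 h4 h5
  rw [Nat.add_sub_cancel] at h2
  refine Nat.le_of_mul_le_mul_right ?_ m.succ_pos
  have h6 := Nat.mul_le_mul_left μ h5
  have h7 : 6 ≤ m + 1 := by omega
  simp only [Nat.succ_eq_add_one]
  nlinarith

lemma var_add (f : (Fin k → ZMod 2) → ℕ) (u w : Fin k → ZMod 2) :
    ∑ x, (f x - f (x + (u + w))) ≤ ∑ x, (f x - f (x + u)) + ∑ x, (f x - f (x + w)) := by
  rw [← Equiv.sum_comp (Equiv.addRight u) fun x => f x - f (x + w), ← sum_add_distrib]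
  refine sum_le_sum fun x _ => ?_
  simp only [Equiv.coe_addRight, add_assoc]
  omega

lemma var_le (hs : span (ZMod 2) {x | x ∈ s} = ⊤) {f : (Fin k → ZMod 2) → ℕ} {D : ℕ}
    (h : ∀ v ∈ s, ∑ x, (f x - f (x + v)) ≤ D) (u : Fin k → ZMod 2) :
    ∑ x, (f x - f (x + u)) ≤ k * D := by
  obtain ⟨b, h1, h2, -⟩ := exists_fun_fin_finrank_span_eq (ZMod 2) {x | x ∈ s}
  obtain ⟨c, rfl⟩ := (mem_span_range_iff_exists_fun _).1 (show u ∈ span (ZMod 2) (Set.range b) by
    rw [h2, hs]; exact mem_top)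
  have h3 : ∀ T : Finset _, ∑ x, (f x - f (x + ∑ i ∈ T, c i • b i)) ≤ #T * D := fun T => by
    induction T using Finset.cons_induction with
    | empty => simp
    | cons i T hi ih =>
      rw [sum_cons, card_cons, add_mul, one_mul, add_comm _ D]
      refine (var_add f _ _).trans (add_le_add ?_ ih)
      have h4 : ∀ x : ZMod 2, x = 1 ∨ x = 0 := by decide
      rcases h4 (c i) with e | e
      · simpa [e] using h _ (h1 i)
      · simp [e]
  refine (h3 univ).trans (Nat.mul_le_mul_right _ ?_)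
  rw [card_univ, Fintype.card_fin, hs]
  simp

lemma exists_level {f : (Fin k → ZMod 2) → ℕ} {E : ℕ} (h : ∀ u, ∑ x, (f x - f (x + u)) ≤ E) :
    ∃ c, ∑ x, (f x - c) + ∑ x, (c - f x) ≤ 2 * E := by
  have h1 : ∑ x, ∑ y, (f x - f y) ≤ ∑ _y : Fin k → ZMod 2, E := by
    refine le_trans (le_of_eq ?_) (sum_le_sum fun u _ => h u)
    rw [sum_comm (f := fun u x => f x - f (x + u))]
    exact sum_congr rfl fun x _ => (Equiv.sum_comp (Equiv.addLeft x) fun y => f x - f y).symm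
  have h2 : ∑ y, (∑ x, (f x - f y) + ∑ x, (f y - f x)) ≤ ∑ _y : Fin k → ZMod 2, 2 * E := by
    rw [sum_add_distrib, sum_comm, ← mul_sum]
    omega
  obtain ⟨y, -, hy⟩ := exists_le_of_sum_le univ_nonempty h2
  exact ⟨f y, hy⟩

lemma pow_five_le (hk : 1000 ≤ k) : 2 * k ^ 5 ≤ 2 ^ (k - 1) := by
  have h1 : k / 10 < 2 ^ (k / 10) := Nat.lt_two_pow_self
  have h2 : k ≤ 2 ^ (k / 10 + 4) := by rw [pow_add]; omega
  calc 2 * k ^ 5 ≤ 2 * (2 ^ (k / 10 + 4)) ^ 5 := by gcongr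
    _ = 2 ^ ((k / 10 + 4) * 5 + 1) := by rw [← pow_mul, pow_succ']
    _ ≤ _ := Nat.pow_le_pow_right (by norm_num) (by omega)

theorem core {μ : ℕ} (hk : 1000 ≤ k) {s₀ : Multiset (Fin k → ZMod 2)} (h0 : count 0 s₀ = 0)
    (hs₀ : span (ZMod 2) {x | x ∈ s₀} = ⊤) (h₀ : ∀ v ∈ s₀, v ≠ 0 → Srv s₀ v (3 + μ * 2 ^ k))
    (hμ : 1 ≤ μ) : 20 * (μ * 2 ^ k) + 11 * (k - 1) ≤ 10 * (s₀.card + 2 * μ) := by
  by_contra! hn
  have p1 := pow_five_le hk
  have p2 : 2 ^ k = 2 * 2 ^ (k - 1) := by rw [← pow_succ', Nat.sub_add_cancel (by omega)]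
  have p3 : 1000 * k ^ 4 ≤ k ^ 5 := by rw [pow_succ' k 4]; gcongr
  have p4 : 1000 * k ≤ k ^ 2 := by rw [sq]; gcongr
  have p5 : 1000 * k ^ 2 ≤ k ^ 4 := by nlinarith
  have c1 := count_le (by omega) hs₀ h₀
  obtain ⟨s, hs⟩ : ∃ s, s = s₀ + Multiset.replicate (2 * μ) 0 := ⟨_, rfl⟩
  have q0 : count 0 s = 2 * μ := by simp [hs, h0]
  have q1 : ∀ v, v ≠ 0 → count v s = count v s₀ := fun v hv => by
    simp [hs, Multiset.count_replicate, hv.symm]
  have q2 : s.card = s₀.card + 2 * μ := by simp [hs]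
  have h : ∀ v ∈ s₀, v ≠ 0 → Srv s v (3 + μ * 2 ^ k) := fun v hv h1 =>
    (h₀ v hv h1).mono (hs ▸ Multiset.le_add_right _ _)
  obtain ⟨c, hc⟩ := exists_level (var_le hs₀ (f := fun x => count x s) (D := 15 * k) fun v hv => by
    by_cases h1 : v = 0
    · simp [h1]
    · have := variation_le h1 (h v hv h1)
      have := c1 v
      rw [if_neg h1, ← q1 v h1] at this
      omega)
  have e0 : 2 * (k * (15 * k)) = 30 * k ^ 2 := by ring
  rw [e0] at hc
  have e1 : s.card + ∑ x, (c - count x s) = c * 2 ^ k + ∑ x, (count x s - c) := by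
    have : c * 2 ^ k = ∑ _x : Fin k → ZMod 2, c := by simp [mul_comm]
    rw [this, card_eq_sum, ← sum_add_distrib, ← sum_add_distrib]
    exact sum_congr rfl fun x _ => by omega
  have e3 : 2 * μ * 2 ^ k = 2 * (μ * 2 ^ k) := mul_assoc _ _ _
  obtain rfl : c = 2 * μ := by
    have := c1 0
    rw [if_pos rfl] at this
    rcases Nat.lt_trichotomy c (2 * μ) with h1 | h1 | h1
    · have : (c + 1) * 2 ^ k ≤ 2 * μ * 2 ^ k := Nat.mul_le_mul_right _ h1
      rw [add_mul] at this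
      omega
    · exact h1
    · have : (2 * μ + 1) * 2 ^ k ≤ c * 2 ^ k := Nat.mul_le_mul_right _ h1
      rw [add_mul] at this
      omega
  set B : Finset (Fin k → ZMod 2) := insert 0 (univ.filter fun x => count x s ≠ 2 * μ) with hB
  have b1 : #B ≤ 31 * k ^ 2 := by
    refine (card_insert_le _ _).trans ?_
    have : #{x | count x s ≠ 2 * μ} ≤ ∑ x, ((count x s - 2 * μ) + (2 * μ - count x s)) := by
      rw [card_filter]
      exact sum_le_sum fun x _ => by split_ifs <;> omega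
    rw [sum_add_distrib] at this
    omega
  set S := univ \ image₂ (· + ·) B B with hS
  have b2 : 2 ^ (k - 1) ≤ #S := by
    have a1 := card_image₂_le (· + ·) B B
    have a2 : #B * #B ≤ 31 * k ^ 2 * (31 * k ^ 2) := Nat.mul_le_mul b1 b1
    have a3 : 31 * k ^ 2 * (31 * k ^ 2) = 961 * k ^ 4 := by ring
    rw [hS, card_univ_sdiff]
    simp only [Fintype.card_pi, ZMod.card, prod_const, card_univ, Fintype.card_fin]
    omega
  have b3 := count_main (s - (2 * μ) • univ.val) S (∑ x, (2 * μ - count x s)) b2 fun v hv => by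
    have a1 : ∀ x ∈ B, x + v ∉ B := fun x x1 x2 => (mem_sdiff.1 hv).2
      (mem_image₂.2 ⟨x, x1, _, x2, by rw [← add_assoc, add_self2, zero_add]⟩)
    have a2 := a1 0 (mem_insert_self _ _)
    simp only [zero_add, hB, mem_insert, mem_filter, mem_univ, true_and, not_or, not_not] at a1 a2
    exact generic e3 a2.1 q0.ge a2.2 (fun x hx => (a1 x (.inr hx)).2)
      (h v (Multiset.count_pos.1 (by have := q1 v a2.1; omega)) a2.1)
  have e2 : (s - (2 * μ) • univ.val).card = ∑ x, (count x s - 2 * μ) := by simp [card_eq_sum]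
  omega

theorem asp_lower {μ : ℕ} (hk : 1000 ≤ k) (hμ : 1 ≤ μ) :
    20 * (μ * 2 ^ k) + 11 * (k - 1) ≤ 10 * (ASP (ZMod 2) k (3 + μ * 2 ^ k) + 2 * μ) := by
  obtain ⟨G, h1, h2⟩ := Nat.sInf_mem (asp_nonempty k (3 + μ * 2 ^ k))
  have h3 := core (s₀ := (univ.val.map G.col).filter (· ≠ 0)) hk (by simp) ?_ (fun v hv h0 => ?_) hμ
  · have h4 := Multiset.card_le_card (Multiset.filter_le (· ≠ 0) (univ.val.map G.col))
    rw [Multiset.card_map, card_val, card_univ, Fintype.card_fin] at h4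
    unfold ASP
    omega
  · rw [Matrix.rank_eq_finrank_span_cols] at h1
    rw [eq_top_iff, ← eq_top_of_finrank_eq (h1.trans (by simp))]
    refine span_le.2 ?_
    rintro _ ⟨j, rfl⟩
    by_cases h0 : G.col j = 0
    · simp [h0]
    · exact subset_span (by simp [h0])
  · obtain ⟨j, -, rfl⟩ := Multiset.mem_map.1 (Multiset.mem_filter.1 hv).1
    exact (srv_of_serves (h2 j)).drop_zero

theorem gap {μ : ℕ} (hk : 100000 ≤ k) (hμ : 1 ≤ μ) :
    ASB (ZMod 2) k 3 + ASB (ZMod 2) k (μ * 2 ^ k) + k / 12 < ASP (ZMod 2) k (3 + μ * 2 ^ k) := by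
  have h1 := asb_three k
  have h2 := asb_double k hμ
  have h3 := asp_lower (k := k) (by omega) hμ
  have h4 := Nat.sqrt_le k
  have h5 : 316 ≤ k.sqrt := Nat.le_sqrt.2 (by omega)
  have h6 := Nat.mul_le_mul_right k.sqrt h5
  have h7 : (k.sqrt + 2) ^ 2 = k.sqrt * k.sqrt + 4 * k.sqrt + 4 := by ring
  omega

end Pool.Agent.Lib.MP_821f63_lc
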