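import Pool.Agent.Lib.MP_821f63_lc.BinUp

/-! Disjoint recovery sets inside a multiset of binary vectors, and removal of pairs. -/

namespace Pool.Agent.Lib.MP_821f63_lc

open Multiset

variable {k : ℕ}

/-- The multiset `s` contains `τ` disjoint parts with sum `v`. -/
def Srv (s : Multiset (Fin k → ZMod 2)) (v : Fin k → ZMod 2) (τ : ℕ) : Prop :=
  ∃ L : Multiset (Multiset (Fin k → ZMod 2)), τ ≤ card L ∧ L.sum ≤ s ∧ ∀ R ∈ L, R.sum = v

variable {s s' : Multiset (Fin k → ZMod 2)} {v x y : Fin k → ZMod 2} {τ : ℕ}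

lemma Srv.mono (h : Srv s v τ) (hs : s ≤ s') : Srv s' v τ :=
  h.imp fun _ h => ⟨h.1, h.2.1.trans hs, h.2.2⟩

lemma split_mem {α : Type} {L : Multiset (Multiset α)} {x : α} (h : x ∈ L.sum) :
    ∃ R L', L = (x ::ₘ R) ::ₘ L' := by
  have h' : x ∈ L.join := h
  obtain ⟨R, hR, hx⟩ := mem_join.1 h'
  obtain ⟨L', rfl⟩ := exists_cons_of_mem hR
  obtain ⟨R', rfl⟩ := exists_cons_of_mem hx
  exact ⟨R', L', rfl⟩

lemma Srv.pair (h : Srv (x ::ₘ (x + v) ::ₘ s) v τ) : Srv s v (τ - 1) := by
  obtain ⟨L, h1, h2, h3⟩ := h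
  have one : ∀ (z : Fin k → ZMod 2) (L : Multiset (Multiset _)), τ ≤ card L → L.sum ≤ z ::ₘ s →
      (∀ R ∈ L, R.sum = v) → Srv s v (τ - 1) := fun z L h1 h2 h3 => by
    by_cases hz : z ∈ L.sum
    · obtain ⟨R, L', rfl⟩ := split_mem hz
      rw [sum_cons, cons_add, cons_le_cons_iff] at h2
      exact ⟨L', by simpa using h1, (le_add_left _ _).trans h2, fun R h => h3 R (mem_cons_of_mem h)⟩
    · exact ⟨L, by omega, (le_cons_of_notMem hz).1 h2, h3⟩
  by_cases hx : x ∈ L.sum
  swap
  · exact one _ L h1 ((le_cons_of_notMem hx).1 h2) h3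
  obtain ⟨R, L', rfl⟩ := split_mem hx
  rw [sum_cons, cons_add, cons_le_cons_iff] at h2
  by_cases hy : x + v ∈ L'.sum
  swap
  · exact ⟨L', by simpa using h1, (le_cons_of_notMem hy).1 ((le_add_left _ _).trans h2),
      fun R h => h3 R (mem_cons_of_mem h)⟩
  obtain ⟨R', L'', rfl⟩ := split_mem hy
  rw [sum_cons, cons_add, add_cons, cons_le_cons_iff] at h2
  refine ⟨(R + R') ::ₘ L'', by simpa using h1, by rwa [sum_cons, add_assoc], fun T hT => ?_⟩
  rcases mem_cons.1 hT with rfl | hT
  · have e1 := h3 _ (mem_cons_self _ _)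
    have e2 := h3 _ (mem_cons_of_mem (mem_cons_self _ _))
    rw [sum_cons] at e1 e2
    rw [sum_add]
    linear_combination e1 + e2 - add_self2 x
  · exact h3 T (mem_cons_of_mem (mem_cons_of_mem hT))

lemma add_add2 (x v : Fin k → ZMod 2) : x + v + v = x := by rw [add_assoc, add_self2, add_zero]

/-- All pairs with sum `v` can be removed at the cost of one part each. -/
lemma reduce (hv : v ≠ 0) (A : Multiset (Fin k → ZMod 2)) : ∃ A' M, card A = card A' + 2 * M ∧
    (∀ x, count x A' = count x A - count (x + v) A) ∧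
    ∀ B τ, Srv (A + B) v τ → Srv (A' + B) v (τ - M) := by
  induction hn : card A using Nat.strong_induction_on generalizing A with
  | _ n ih =>
  by_cases h : ∃ x, x ∈ A ∧ x + v ∈ A
  · obtain ⟨x, h1, h2⟩ := h
    have hne : x + v ≠ x := by simpa using hv
    obtain ⟨A₁, rfl⟩ := exists_cons_of_mem h1
    obtain ⟨A₂, rfl⟩ := exists_cons_of_mem ((mem_cons.1 h2).resolve_left hne)
    obtain ⟨A', M, e1, e2, e3⟩ := ih _ (by simp [← hn]) A₂ rfl
    refine ⟨A', M + 1, by simp [← hn, e1]; ring, fun z => ?_, fun B τ hS => ?_⟩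
    · have a1 : z + v = x + v ↔ z = x := add_left_inj v
      have a2 : z + v = x ↔ z = x + v := ⟨fun e => by rw [← e, add_add2], fun e => by
        rw [e, add_add2]⟩
      rw [e2]
      simp only [count_cons, a1, a2]
      omega
    · rw [cons_add, cons_add] at hS
      have := e3 B _ hS.pair
      rwa [Nat.sub_sub, add_comm 1] at this
  · refine ⟨A, 0, hn.symm, fun z => ?_, fun B τ hS => hS⟩
    by_cases hz : z ∈ A
    · rw [count_eq_zero.2 fun h' => h ⟨z, hz, h'⟩, Nat.sub_zero]
    · simp [count_eq_zero.2 hz]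

lemma small_part {R : Multiset (Fin k → ZMod 2)} (hv : v ≠ 0) (hR : R.sum = v)
    (h : ∀ x ∈ R, x + v ∉ R) : 3 ≤ card R ∨ R = {v} := by
  by_contra! hc
  have h2 : card R = 0 ∨ card R = 1 ∨ card R = 2 := by omega
  rcases h2 with h2 | h2 | h2
  · rw [card_eq_zero.1 h2] at hR
    exact hv hR.symm
  · obtain ⟨a, rfl⟩ := card_eq_one.1 h2
    exact hc.2 (by rw [← hR, sum_singleton])
  · obtain ⟨a, b, rfl⟩ := card_eq_two.1 h2
    have e : a + v = b := by
      rw [← hR]
      simp only [insert_eq_cons, sum_cons, sum_singleton]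
      rw [← add_assoc, add_self2, zero_add]
    exact h a (by simp) (by simp [e])

lemma card_mul_le {α : Type} {L : Multiset α} {f : α → ℕ} {c : ℕ} (h : ∀ R ∈ L, c ≤ f R) :
    c * card L ≤ (L.map f).sum := by
  have := card_nsmul_le_sum (s := L.map f) (a := c) (by simpa using h)
  rwa [card_map, smul_eq_mul, mul_comm] at this

lemma card_eq_sum (s : Multiset (Fin k → ZMod 2)) : card s = ∑ x, count x s :=
  (sum_count_eq_card fun _ _ => Finset.mem_univ _).symm

/-- The variation of the multiplicities along a vector that is served `t` times. -/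
lemma variation_le {t : ℕ} (hv : v ≠ 0) (h : Srv s v t) :
    ∑ x, (count x s - count (x + v) s) + 6 * t ≤ 3 * card s + 4 * (count v s - count 0 s) := by
  obtain ⟨A, M, e1, e2, e3⟩ := reduce hv s
  obtain ⟨L, h1, h2, h3⟩ := e3 0 t (by simpa using h)
  rw [add_zero] at h2
  have h4 : 3 * card L ≤ (L.map fun R => card R + 2 * count v R).sum := card_mul_le fun R hR => by
    have hle : R ≤ A := (single_le_sum (fun _ _ => zero_le _) R hR).trans h2
    rcases small_part hv (h3 R hR) (fun x h5 h6 => by
      have a1 := count_pos.2 (mem_of_le hle h5)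
      have a2 := count_pos.2 (mem_of_le hle h6)
      rw [e2] at a1 a2
      rw [add_add2] at a2
      omega) with h5 | rfl
    · omega
    · simp
  have h5 : (L.map fun R => card R + 2 * count v R).sum = card L.sum + 2 * count v L.sum := by
    clear h1 h2 h3 h4
    induction L using Multiset.induction_on with
    | empty => simp
    | cons R L ih => simp only [map_cons, sum_cons, ih, card_add, count_add]; ring
  have h6 := card_le_card h2
  have h7 := count_le_of_le v h2
  have h8 : card A = ∑ x, (count x s - count (x + v) s) := by simp only [card_eq_sum, e2]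
  have h9 := e2 v
  rw [add_self2] at h9
  omega

lemma exists_three {α : Type} {L : Multiset α} (h : 3 ≤ card L) :
    ∃ a b c L', L = a ::ₘ b ::ₘ c ::ₘ L' := by
  induction L using Quotient.inductionOn with
  | _ l =>
  match l, h with
  | a :: b :: c :: l, _ => exact ⟨a, b, c, l, rfl⟩

lemma card_filter_sum {α : Type} (p : α → Prop) [DecidablePred p] (L : Multiset (Multiset α)) :
    (L.map fun R => card (R.filter p)).sum = card (L.sum.filter p) := by
  induction L using Multiset.induction_on with
  | empty => simp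
  | cons R L ih => simp only [map_cons, sum_cons, ih, card_add, filter_add]

lemma Srv.drop_zero (h : Srv s v τ) : Srv (s.filter (· ≠ 0)) v τ := by
  obtain ⟨L, h1, h2, h3⟩ := h
  refine ⟨L.map (filter (· ≠ 0)), by simpa using h1, le_trans ?_ (filter_le_filter _ h2),
    fun R hR => ?_⟩
  · clear h1 h2 h3
    induction L using Multiset.induction_on with
    | empty => simp
    | cons R L ih => simpa only [map_cons, sum_cons, filter_add, add_le_add_iff_left] using ih
  · obtain ⟨R, hR', rfl⟩ := mem_map.1 hR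
    rw [← h3 R hR']
    conv_rhs => rw [← filter_add_not (· ≠ 0) R, sum_add]
    rw [sum_eq_zero (s := filter (fun x => ¬x ≠ 0) R) fun x hx => not_not.1 (mem_filter.1 hx).2,
      add_zero]

/-- At a generic vector three parts lie among the extra columns, and they are short. -/
lemma generic {c T : ℕ} (hT : c * 2 ^ k = 2 * T) (hv : v ≠ 0) (h0 : c ≤ count 0 s)
    (h2 : count v s = c) (hB : ∀ x, count x s ≠ c → count (x + v) s = c) (h : Srv s v (3 + T)) :
    ∃ R₁ R₂ R₃ : Multiset (Fin k → ZMod 2), R₁ + (R₂ + R₃) ≤ s - c • Finset.univ.val ∧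
      R₁.sum = v ∧ R₂.sum = v ∧ R₃.sum = v ∧
      card R₁ + card R₂ + card R₃ + 2 * ∑ x, (c - count x s) ≤ card (s - c • Finset.univ.val) := by
  set U : Multiset (Fin k → ZMod 2) := c • Finset.univ.val with hU
  have cU : ∀ x, count x U = c := fun x => by simp [hU]
  set N := ∑ x, (c - count x s) with hN
  obtain ⟨A, M, e1, e2, e3⟩ := reduce hv (s ∩ U)
  have a1 : ∀ x, count x A = c - count (x + v) s := fun x => by
    have := hB (x + v)
    rw [add_add2] at this
    rw [e2, count_inter, count_inter, cU, cU]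
    omega
  have a2 : card A = N := by
    rw [card_eq_sum, hN, ← Equiv.sum_comp (Equiv.addRight v) fun x => c - count x s]
    simp [a1]
  have a3 : card (s ∩ U) + N = 2 * T := by
    rw [← hT, card_eq_sum, hN, ← Finset.sum_add_distrib, Finset.sum_congr rfl fun x _ =>
      show count x (s ∩ U) + (c - count x s) = c by rw [count_inter, cU]; omega]
    simp [mul_comm]
  obtain ⟨L, h1, h3, h4⟩ := e3 (s - U) _ (by rwa [add_comm, Multiset.sub_add_inter])
  have mA : ∀ x ∈ A, count (x + v) s < c := fun x hx => by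
    have := count_pos.2 hx
    rw [a1] at this
    omega
  have mP : ∀ x ∈ s - U, c < count x s := fun x hx => by
    have := count_pos.2 hx
    rw [count_sub, cU] at this
    omega
  have hle : ∀ R ∈ L, R ≤ A + (s - U) := fun R hR =>
    (single_le_sum (fun _ _ => zero_le _) R hR).trans h3
  have big : ∀ R ∈ L, 3 ≤ card R := fun R hR => by
    have m : ∀ x ∈ R, count (x + v) s < c ∨ c < count x s := fun x hx =>
      (mem_add.1 (mem_of_le (hle R hR) hx)).imp (mA x) (mP x)
    refine (small_part hv (h4 R hR) fun x x1 x2 => ?_).resolve_right fun e => ?_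
    · have b1 := m x x1
      have b2 := m _ x2
      have b3 := hB x
      rw [add_add2] at b2
      omega
    · have b1 := m v (by simp [e])
      rw [add_self2] at b1
      omega
  have f1 : card (filter (fun x => count (x + v) s < c) (A + (s - U))) ≤ N := by
    rw [filter_add, (filter_eq_nil (s := s - U)).2 fun x hx => (by
      have := mP x hx; have := hB x; omega : ¬count (x + v) s < c), add_zero, ← a2]
    exact card_le_card (filter_le _ _)
  set L₁ := L.filter fun R => ∃ x ∈ R, count (x + v) s < c with hL₁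
  have f2 : 1 * card L₁ ≤ N := by
    refine (card_mul_le (f := fun R => card (R.filter fun x => count (x + v) s < c))
      fun R hR => ?_).trans ?_
    · obtain ⟨x, x1, x2⟩ := (mem_filter.1 hR).2
      exact card_pos_iff_exists_mem.2 ⟨x, mem_filter.2 ⟨x1, x2⟩⟩
    · rw [card_filter_sum]
      refine (card_le_card (filter_le_filter _ (le_trans ?_ h3))).trans f1
      conv_rhs => rw [← filter_add_not (fun R => ∃ x ∈ R, count (x + v) s < c) L, sum_add]
      exact le_add_right _ _
  have f3 := filter_add_not (fun R => ∃ x ∈ R, count (x + v) s < c) L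
  have f4 := congrArg card f3
  rw [card_add, ← hL₁] at f4
  obtain ⟨R₁, R₂, R₃, L', e⟩ := exists_three
    (L := L.filter fun R => ¬∃ x ∈ R, count (x + v) s < c) (by omega)
  have m1 := mem_filter.1 (e ▸ mem_cons_self R₁ _)
  have m2 := mem_filter.1 (e ▸ mem_cons_of_mem (mem_cons_self R₂ _))
  have m3 := mem_filter.1 (e ▸ mem_cons_of_mem (mem_cons_of_mem (mem_cons_self R₃ _)))
  have f5 : L.sum = (L₁ + L').sum + (R₁ + (R₂ + R₃)) := by
    rw [← f3, e]
    simp only [sum_add, sum_cons, ← hL₁]
    abel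
  refine ⟨R₁, R₂, R₃, ?_, h4 _ m1.1, h4 _ m2.1, h4 _ m3.1, ?_⟩
  · have g1 : R₁ + (R₂ + R₃) ≤ filter (fun x => ¬count (x + v) s < c) (A + (s - U)) := by
      refine le_filter.2 ⟨le_trans (f5 ▸ le_add_left _ _) h3, fun x hx hc => ?_⟩
      rcases mem_add.1 hx with hx | hx
      · exact m1.2 ⟨x, hx, hc⟩
      · exact (mem_add.1 hx).elim (fun hx => m2.2 ⟨x, hx, hc⟩) fun hx => m3.2 ⟨x, hx, hc⟩
    rw [filter_add, filter_eq_nil.2 fun x hx => not_not.2 (mA x hx), zero_add] at g1
    exact g1.trans (filter_le _ _)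
  · have g1 : 3 * card (L₁ + L') ≤ ((L₁ + L').map card).sum := card_mul_le fun R hR => big R (by
      rcases mem_add.1 hR with hR | hR
      · exact (mem_filter.1 hR).1
      · exact (mem_filter.1 (e ▸ mem_cons_of_mem (mem_cons_of_mem (mem_cons_of_mem hR)))).1)
    have g2 : ((L₁ + L').map card).sum = card (L₁ + L').sum := (card_join _).symm
    have g3 := card_le_card h3
    rw [e] at f4
    simp only [f5, card_add, card_cons] at g1 g2 g3 f4
    omega

end Pool.Agent.Lib.MP_821f63_lc
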