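import Mathlib

/-! M. Hall's theorem: a zero-sum family in a finite abelian group is a difference of two
enumerations of the group. -/

namespace Pool.Agent.Lib.MP_821f63_lc

open Finset Equiv

variable {I G : Type} [AddCommGroup G] [DecidableEq I]

/-- The family `b` is the difference of two enumerations. -/
def Dif (b : I → G) : Prop := ∃ a c : I ≃ G, ∀ i, c i = a i + b i

lemma hall_chain {b : I → G} {q : I} (K : G) (m : ℕ) : ∀ (a c : I ≃ G) (p : I), p ≠ q →
    (∀ i, i ≠ p → i ≠ q → c i = a i + b i) → K = b q + a p + a q → K + b p = c p + c q →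
    ∀ r : ℕ → I, r 0 = p → (∀ i ≤ m, a (r (i + 1)) = K - c (r i)) →
    (∀ i, 1 ≤ i → i ≤ m → r i ≠ p ∧ r i ≠ q) → (r (m + 1) = p ∨ r (m + 1) = q) → Dif b := by
  induction m with
  | zero =>
    intro a c p hpq h hK hs r r0 hr _ he
    have h1 := hr 0 le_rfl
    rw [r0] at h1
    rcases he with he | he
    · rw [he] at h1
      refine ⟨a, (swap p q).trans c, fun i => ?_⟩
      by_cases hp : i = p
      · subst hp
        simp only [trans_apply, swap_apply_left]
        linear_combination (norm := abel1) -hs - h1
      by_cases hq : i = q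
      · subst hq
        simp only [trans_apply, swap_apply_right]
        linear_combination (norm := abel1) hK + h1
      · simp only [trans_apply, swap_apply_of_ne_of_ne hp hq, h i hp hq]
    · rw [he] at h1
      refine ⟨(swap p q).trans a, (swap p q).trans c, fun i => ?_⟩
      by_cases hp : i = p
      · subst hp
        simp only [trans_apply, swap_apply_left]
        linear_combination (norm := abel1) -hs - h1
      by_cases hq : i = q
      · subst hq
        simp only [trans_apply, swap_apply_right]
        linear_combination (norm := abel1) hK + h1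
      · simp only [trans_apply, swap_apply_of_ne_of_ne hp hq, h i hp hq]
  | succ m ih =>
    intro a c p hpq h hK hs r r0 hr hn he
    obtain ⟨h1p, h1q⟩ := hn 1 le_rfl (by omega)
    have h1 := hr 0 (by omega)
    rw [r0, zero_add] at h1
    have hne : ∀ i, 1 ≤ i → i ≤ m + 1 → r (i + 1) ≠ r 1 := fun i i1 i2 e => by
      have h2 := hr i i2
      rw [e, h1, sub_right_inj] at h2
      exact (hn i i1 i2).1 (c.injective h2).symm
    have hr' : ∀ i ≤ m, (if i = 0 then r 1 else swap p (r 1) (r (i + 1))) = r (i + 1) := by
      intro i hi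
      split_ifs with h0
      · rw [h0]
      · exact swap_apply_of_ne_of_ne (hn _ (by omega) (by omega)).1 (hne i (by omega) (by omega))
    refine ih ((swap p (r 1)).trans a) ((swap p q).trans c) (r 1) h1q (fun i i1 i2 => ?_) ?_ ?_
      (fun i => if i = 0 then r 1 else swap p (r 1) (r (i + 1))) rfl (fun i hi => ?_)
      (fun i i1 i2 => ?_) ?_
    · by_cases hp : i = p
      · subst hp
        simp only [trans_apply, swap_apply_left]
        linear_combination (norm := abel1) -hs - h1
      · simp only [trans_apply, swap_apply_of_ne_of_ne hp i1, swap_apply_of_ne_of_ne hp i2,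
          h i hp i2]
    · simp only [trans_apply, swap_apply_right, swap_apply_of_ne_of_ne hpq.symm h1q.symm, hK]
    · simp only [trans_apply, swap_apply_right, swap_apply_of_ne_of_ne h1p h1q]
      linear_combination (norm := abel1) -h1 - h (r 1) h1p h1q
    · have h2 := hn (i + 1) (by omega) (by omega)
      simp only [hr' i hi, trans_apply, Nat.add_eq_zero_iff, one_ne_zero, and_false, if_false,
        swap_apply_self, swap_apply_of_ne_of_ne h2.1 h2.2]
      exact hr (i + 1) (by omega)
    · simp only [hr' i i2]
      exact ⟨hne i i1 (by omega), (hn _ (by omega) (by omega)).2⟩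
    · simp only [Nat.add_eq_zero_iff, one_ne_zero, and_false, if_false]
      rcases he with he | he
      · rw [he, swap_apply_left]; exact .inl rfl
      · rw [he, swap_apply_of_ne_of_ne hpq.symm h1q.symm]; exact .inr rfl

lemma hall_step [Finite I] {b b' : I → G} {p q : I} (hpq : p ≠ q) (h : Dif b')
    (he : ∀ i, i ≠ p → i ≠ q → b' i = b i) (hs : b' p + b' q = b p + b q) : Dif b := by
  classical
  obtain ⟨a, c, h⟩ := h
  set K := b q + a p + a q with hK
  let ρ : Perm I := c.trans ((Equiv.subLeft K).trans a.symm)
  have hex : ∃ m, (ρ ^ (m + 1)) p = p ∨ (ρ ^ (m + 1)) p = q := by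
    obtain ⟨m, hm⟩ := Nat.exists_eq_succ_of_ne_zero (orderOf_pos ρ).ne'
    exact ⟨m, .inl (by rw [← Nat.succ_eq_add_one, ← hm, pow_orderOf_eq_one]; rfl)⟩
  refine hall_chain K (Nat.find hex) a c p hpq (fun i i1 i2 => by rw [h, he i i1 i2]) hK ?_
    (fun i => (ρ ^ i) p) rfl (fun i _ => ?_) (fun i i1 i2 => ?_) (Nat.find_spec hex)
  · rw [h, h, hK]
    linear_combination (norm := abel1) -hs
  · simp only [pow_succ', Perm.mul_apply]
    simp [ρ]
  · obtain ⟨j, rfl⟩ := Nat.exists_eq_add_of_le' i1
    exact not_or.1 (Nat.find_min hex (by omega))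

theorem hall [Fintype I] (e : I ≃ G) (b : I → G) (hb : ∑ i, b i = 0) : Dif b := by
  classical
  induction hn : #{i | b i ≠ 0} using Nat.strong_induction_on generalizing b with
  | _ n ih =>
  by_cases h0 : ∀ i, b i = 0
  · exact ⟨e, e, fun i => by rw [h0, add_zero]⟩
  obtain ⟨p, hp⟩ := not_forall.1 h0
  obtain ⟨q, hqp, hq⟩ : ∃ q, q ≠ p ∧ b q ≠ 0 := by
    by_contra! h
    rw [sum_eq_single p (fun i _ hi => h i hi) (by simp)] at hb
    exact hp hb
  set b' : I → G := fun i => b i + (if i = q then b p else 0) - if i = p then b p else 0 with hb'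
  refine hall_step (b' := b') hqp.symm (ih _ ?_ b' ?_ rfl) (fun i i1 i2 => ?_) ?_
  · rw [← hn]
    refine card_lt_card ⟨fun i hi => ?_, fun h => ?_⟩
    · simp only [mem_filter, mem_univ, true_and, hb'] at hi ⊢
      intro h1
      have i1 : i ≠ p := fun e => hp (e ▸ h1)
      have i2 : i ≠ q := fun e => hq (e ▸ h1)
      simp [h1, i1, i2] at hi
    · have := h (mem_filter.2 ⟨mem_univ p, hp⟩)
      simp [hb', hqp.symm] at this
  · simp [hb', sum_add_distrib, sum_sub_distrib, hb]
  · simp [hb', i1, i2]
  · simp [hb', hqp, hqp.symm, add_comm]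

end Pool.Agent.Lib.MP_821f63_lc
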