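import Pool.Agent.Lib.MP_821f63_lc.Defs
import Pool.Agent.Lib.MP_821f63_lc.Hall

/-! Binary all-symbol batch codes: the product parity code and the doubled simplex code. -/

namespace Pool.Agent.Lib.MP_821f63_lc

open Finset Submodule

variable {k t : ℕ} {J : Type}

lemma exists_matrix {F : Type} [Field F] [Fintype J] (g : J → Fin k → F)
    (hs : span F (Set.range g) = ⊤)
    (h : ∀ s : Fin t → J, ∃ R : Fin t → Finset J, (∀ a b, a ≠ b → Disjoint (R a) (R b)) ∧
      ∀ a, g (s a) ∈ span F (g '' R a)) :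
    ∃ G : Matrix (Fin k) (Fin (Fintype.card J)) F, G.rank = k ∧
      ∀ s : Fin t → Fin (Fintype.card J), Serves G (fun a => G.col (s a)) := by
  let e := Fintype.equivFin J
  refine ⟨Matrix.of fun i j => g (e.symm j) i, ?_, fun s => ?_⟩
  · rw [Matrix.rank_eq_finrank_span_cols]
    have h1 : Set.range (Matrix.of fun i j => g (e.symm j) i).col = Set.range g :=
      e.symm.surjective.range_comp g
    rw [h1, hs]
    simp
  · obtain ⟨R, h1, h2⟩ := h fun a => e.symm (s a)
    refine ⟨fun a => (R a).map e.toEmbedding, fun a b hab => (disjoint_map _).2 (h1 a b hab),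
      fun a => span_mono ?_ (h2 a)⟩
    rintro _ ⟨j, hj, rfl⟩
    exact ⟨e j, by simpa using hj, funext fun i => by simp⟩

lemma span_top_of_single {F : Type} [Field F] {g : J → Fin k → F}
    (h : ∀ m, ∃ j, g j = Pi.single m 1) : span F (Set.range g) = ⊤ := by
  rw [eq_top_iff, ← (Pi.basisFun F (Fin k)).span_eq]
  refine span_mono ?_
  rintro _ ⟨m, rfl⟩
  obtain ⟨j, hj⟩ := h m
  exact ⟨j, by simpa using hj⟩

lemma add_self2 (x : Fin k → ZMod 2) : x + x = 0 := funext fun i => CharTwo.add_self_eq_zero (x i)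

/-- Codes with the all-symbol batch property exist. -/
lemma asb_nonempty (k t : ℕ) : {n | ∃ G : Matrix (Fin k) (Fin n) (ZMod 2), G.rank = k ∧
    ∀ s : Fin t → Fin n, Serves G (fun a => G.col (s a))}.Nonempty :=
  ⟨_, exists_matrix (t := t) (Prod.fst : (Fin k → ZMod 2) × Option (Fin t) → _)
    (span_top_of_single fun _ => ⟨(_, none), rfl⟩) fun s => ⟨fun a => {((s a).1, some a)},
      fun a b hab => by simp [hab], fun a => subset_span (by simp)⟩⟩

lemma asp_nonempty (k t : ℕ) : {n | ∃ G : Matrix (Fin k) (Fin n) (ZMod 2), G.rank = k ∧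
    ∀ j, Serves G (fun _ : Fin t => G.col j)}.Nonempty := by
  obtain ⟨n, G, h1, h2⟩ := asb_nonempty k t
  exact ⟨n, G, h1, fun j => h2 fun _ => j⟩

lemma asp_le_asb (k t : ℕ) : ASP (ZMod 2) k t ≤ ASB (ZMod 2) k t := by
  obtain ⟨G, h1, h2⟩ := Nat.sInf_mem (asb_nonempty k t)
  exact Nat.sInf_le ⟨G, h1, fun j => h2 fun _ => j⟩

/-- Two copies of the space serve any `2 ^ k` vectors. -/
lemma double_batch (v : Fin (2 ^ k) → Fin k → ZMod 2) :
    ∃ R : Fin (2 ^ k) → Finset ((Fin k → ZMod 2) ⊕ (Fin k → ZMod 2)),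
      (∀ a b, a ≠ b → Disjoint (R a) (R b)) ∧ ∀ a, v a ∈ span (ZMod 2) (Sum.elim id id '' R a) := by
  classical
  let i₀ : Fin (2 ^ k) := ⟨0, by positivity⟩
  obtain ⟨a, c, h⟩ := hall (Fintype.equivOfCardEq (by simp))
    (fun i => v i + if i = i₀ then ∑ j, v j else 0) (by simp [sum_add_distrib, add_self2])
  let R : Fin (2 ^ k) → Finset ((Fin k → ZMod 2) ⊕ (Fin k → ZMod 2)) := fun i =>
    {.inl (a i + (a i₀ + v i₀)), .inr (c i + (a i₀ + v i₀))}
  refine ⟨R, fun i j hij => by simp [R, hij.symm], fun i => ?_⟩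
  have h1 : a i + (a i₀ + v i₀) ∈ span (ZMod 2) (Sum.elim id id '' (R i : Set _)) :=
    subset_span ⟨.inl _, by simp [R], rfl⟩
  have h2 : c i + (a i₀ + v i₀) ∈ span (ZMod 2) (Sum.elim id id '' (R i : Set _)) :=
    subset_span ⟨.inr _, by simp [R], rfl⟩
  by_cases hi : i = i₀
  · subst hi
    have e : v i₀ = a i₀ + (a i₀ + v i₀) := by rw [← add_assoc, add_self2, zero_add]
    exact (congrArg (· ∈ _) e).mpr h1
  · have e : v i = a i + (a i₀ + v i₀) + (c i + (a i₀ + v i₀)) := by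
      simp only [h i, if_neg hi]
      linear_combination -add_self2 (a i) - add_self2 (a i₀ + v i₀)
    exact (congrArg (· ∈ _) e).mpr (add_mem h1 h2)

/-- The simplex code repeated `2 μ` times. -/
theorem asb_double (k : ℕ) {μ : ℕ} (hμ : 1 ≤ μ) :
    ASB (ZMod 2) k (μ * 2 ^ k) + 2 * μ ≤ 2 * (μ * 2 ^ k) := by
  classical
  let W := {x : Fin k → ZMod 2 // x ≠ 0}
  have hW : Fintype.card W + 1 = 2 ^ k := by
    have : 0 < 2 ^ k := by positivity
    simp [W]
    omega
  have hc : Fintype.card (Fin μ × (W ⊕ W)) + 2 * μ = 2 * (μ * 2 ^ k) := by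
    simp only [Fintype.card_prod, Fintype.card_sum, Fintype.card_fin, ← hW]
    ring
  rw [← hc, add_le_add_iff_right]
  let ι : W ⊕ W → (Fin k → ZMod 2) ⊕ (Fin k → ZMod 2) := Sum.map Subtype.val Subtype.val
  refine Nat.sInf_le (exists_matrix (fun p : Fin μ × (W ⊕ W) => Sum.elim id id (ι p.2))
    (span_top_of_single fun m => ⟨(⟨0, hμ⟩, .inl ⟨Pi.single m 1, by simp⟩), rfl⟩) fun s => ?_)
  choose R h1 h2 using fun b : Fin μ =>
    double_batch fun i => Sum.elim id id (ι (s (finProdFinEquiv (b, i))).2)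
  refine ⟨fun a => {p | p.1 = (finProdFinEquiv.symm a).1 ∧
    ι p.2 ∈ R p.1 (finProdFinEquiv.symm a).2}, fun a b hab => disjoint_left.2 fun p ha hb => ?_,
    fun a => ?_⟩
  · simp only [mem_filter, mem_univ, true_and] at ha hb
    exact disjoint_left.1 (h1 p.1 _ _ fun e => hab (finProdFinEquiv.symm.injective
      (Prod.ext (ha.1.symm.trans hb.1) e))) ha.2 hb.2
  · obtain ⟨⟨b, i⟩, rfl⟩ := finProdFinEquiv.surjective a
    refine span_le.2 ?_ (h2 b i)
    rintro _ ⟨x | x, hx, rfl⟩ <;> by_cases h0 : x = 0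
    · simp [h0]
    · exact subset_span ⟨(b, .inl ⟨x, h0⟩), by simpa [ι] using hx, rfl⟩
    · simp [h0]
    · exact subset_span ⟨(b, .inr ⟨x, h0⟩), by simpa [ι] using hx, rfl⟩

lemma mem_span_erase [DecidableEq J] {g : J → Fin k → ZMod 2} {T : Finset J} {p : J} (hp : p ∈ T)
    (h : ∑ j ∈ T, g j = 0) : g p ∈ span (ZMod 2) (g '' (T.erase p : Finset J)) := by
  rw [← add_sum_erase T g hp] at h
  have e : g p = ∑ j ∈ T.erase p, g j := by linear_combination add_self2 (g p) - h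
  rw [e]
  exact sum_mem fun j hj => subset_span ⟨j, hj, rfl⟩

/-- An array whose rows and columns sum to zero serves any three of its entries. -/
lemma array_batch {A : Type} [Fintype A] [DecidableEq A] (g : A × A → Fin k → ZMod 2)
    (hr : ∀ i, ∑ j, g (i, j) = 0) (hc : ∀ j, ∑ i, g (i, j) = 0) (s : Fin 3 → A × A) :
    ∃ R : Fin 3 → Finset (A × A), (∀ a b, a ≠ b → Disjoint (R a) (R b)) ∧
      ∀ a, g (s a) ∈ span (ZMod 2) (g '' R a) := by
  have h0 : ∀ p, g p ∈ span (ZMod 2) (g '' ({p} : Finset (A × A))) := fun p => subset_span (by simp)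
  have h1 : ∀ p : A × A, g p ∈ span (ZMod 2) (g '' ((({p.1} ×ˢ univ).erase p : Finset _) : Set _)) :=
    fun p => mem_span_erase (by simp) (by simpa [sum_product] using hr p.1)
  have h2 : ∀ p : A × A, g p ∈ span (ZMod 2) (g '' (((univ ×ˢ {p.2}).erase p : Finset _) : Set _)) :=
    fun p => mem_span_erase (by simp) (by simpa [sum_product] using hc p.2)
  have h3 : ∀ p r : A × A, ∃ R : Finset (A × A), p ∉ R ∧ r ∉ R ∧ g p ∈ span (ZMod 2) (g '' R) := by
    intro p r
    by_cases h : r.1 = p.1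
    · refine ⟨_, notMem_erase _ _, fun hm => ?_, h2 p⟩
      simp only [mem_erase, mem_product, mem_singleton] at hm
      exact hm.1 (Prod.ext h hm.2.2)
    · exact ⟨_, notMem_erase _ _, fun hm => h (mem_singleton.1 (mem_product.1 (mem_erase.1 hm).2).1),
        h1 p⟩
  have key : ∀ R0 R1 R2 : Finset (A × A), Disjoint R0 R1 → Disjoint R0 R2 → Disjoint R1 R2 →
      g (s 0) ∈ span (ZMod 2) (g '' R0) → g (s 1) ∈ span (ZMod 2) (g '' R1) →
      g (s 2) ∈ span (ZMod 2) (g '' R2) →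
      ∃ R : Fin 3 → Finset (A × A), (∀ a b, a ≠ b → Disjoint (R a) (R b)) ∧
      ∀ a, g (s a) ∈ span (ZMod 2) (g '' R a) := fun R0 R1 R2 d1 d2 d3 m0 m1 m2 =>
    ⟨![R0, R1, R2], fun a b hab => by
      fin_cases a <;> fin_cases b <;> simp_all [disjoint_comm], fun a => by fin_cases a <;> assumption⟩
  by_cases e1 : s 0 = s 1 <;> by_cases e2 : s 0 = s 2
  · refine key {s 0} (({(s 0).1} ×ˢ univ).erase (s 0)) ((univ ×ˢ {(s 0).2}).erase (s 0)) (by simp)
      (by simp) (disjoint_left.2 fun x h h' => ?_) (h0 _) (by rw [← e1]; exact h1 _)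
      (by rw [← e2]; exact h2 _)
    simp only [mem_erase, mem_product, mem_singleton] at h h'
    exact h.1 (Prod.ext h.2.1 h'.2.2)
  · obtain ⟨R, a1, a2, a3⟩ := h3 (s 0) (s 2)
    exact key {s 0} R {s 2} (by simpa) (by simpa) (by simpa) (h0 _) (e1 ▸ a3) (h0 _)
  · obtain ⟨R, a1, a2, a3⟩ := h3 (s 0) (s 1)
    exact key {s 0} {s 1} R (by simpa) (by simpa) (by simpa) (h0 _) (h0 _) (e2 ▸ a3)
  by_cases e3 : s 1 = s 2
  · obtain ⟨R, a1, a2, a3⟩ := h3 (s 1) (s 0)
    exact key {s 0} {s 1} R (by simpa) (by simpa) (by simpa) (h0 _) (h0 _) (e3 ▸ a3)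
  · exact key {s 0} {s 1} {s 2} (by simpa) (by simpa) (by simpa) (h0 _) (h0 _) (h0 _)

/-- The product parity code. -/
theorem asb_three (k : ℕ) : ASB (ZMod 2) k 3 ≤ (k.sqrt + 2) ^ 2 := by
  classical
  set a := k.sqrt + 1 with ha
  obtain ⟨ι⟩ : Nonempty (Fin k ↪ Fin a × Fin a) := Function.Embedding.nonempty_of_card_le (by
    simpa using (Nat.lt_succ_sqrt k).le)
  let u : Option (Fin a) → Fin a → ZMod 2 := fun i m => i.elim 1 fun i => if i = m then 1 else 0
  have hu : ∀ m, ∑ i, u i m = 0 := fun m => by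
    simpa [u, Fintype.sum_option] using CharTwo.add_self_eq_zero (1 : ZMod 2)
  have hc : Fintype.card (Option (Fin a) × Option (Fin a)) = (k.sqrt + 2) ^ 2 := by
    simp [ha, sq]
  rw [← hc]
  refine Nat.sInf_le (exists_matrix (fun p m => u p.1 (ι m).1 * u p.2 (ι m).2)
    (span_top_of_single fun m => ⟨(some (ι m).1, some (ι m).2), funext fun m' => ?_⟩)
    (array_batch _ (fun i => funext fun m => ?_) fun j => funext fun m => ?_))
  · by_cases h : m' = m
    · simp [u, h]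
    · have h' : ¬((ι m).1 = (ι m').1 ∧ (ι m).2 = (ι m').2) := fun e =>
        h (ι.injective (Prod.ext e.1 e.2)).symm
      simp only [u, Option.elim_some, Pi.single_eq_of_ne h]
      split_ifs <;> simp_all
  · simp [Finset.sum_apply, ← mul_sum, hu]
  · simp [Finset.sum_apply, ← sum_mul, hu]

end Pool.Agent.Lib.MP_821f63_lc
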