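import Mathlib

namespace Pool.Agent.Lib.MP_821f63_lc

/-- `G` serves the multiset `v 0, …, v (t-1)`: there are pairwise disjoint recovery sets. -/
def Serves {F : Type} [Field F] {k n t : ℕ} (G : Matrix (Fin k) (Fin n) F)
    (v : Fin t → (Fin k → F)) : Prop :=
  ∃ R : Fin t → Finset (Fin n), (∀ a b, a ≠ b → Disjoint (R a) (R b)) ∧
    ∀ a, v a ∈ Submodule.span F (G.col '' (R a : Set (Fin n)))

/-- least length of a `k`-dimensional code with the `t`-all-symbol PIR property -/
noncomputable def ASP (F : Type) [Field F] (k t : ℕ) : ℕ :=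
  sInf {n | ∃ G : Matrix (Fin k) (Fin n) F, G.rank = k ∧
    ∀ j, Serves G (fun _ : Fin t => G.col j)}

/-- least length of a `k`-dimensional code with the `t`-all-symbol batch property -/
noncomputable def ASB (F : Type) [Field F] (k t : ℕ) : ℕ :=
  sInf {n | ∃ G : Matrix (Fin k) (Fin n) F, G.rank = k ∧
    ∀ s : Fin t → Fin n, Serves G (fun a => G.col (s a))}

end Pool.Agent.Lib.MP_821f63_lc
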