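import Mathlib

/-! The finite search: no multiplicity function on the 13 points of the projective plane over
the field with three elements satisfies the counting conditions. -/

namespace Pool.Agent.Lib.MP_821f63_lc

def am (x y z : ℕ) : ℕ := min ((x + y + z) / 2) (min (x + y) (min (x + z) (y + z)))

def lp (p x y z : ℕ) : Bool := p == 0 || Nat.ble (x + y + z + 3) (2 * am x y z + 3 * p)

def loc (a b c d : ℕ) : Bool :=
  Nat.ble (a + b + c + d) 6 && lp a b c d && lp b a c d && lp c a b d && lp d a b c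

def pc (p x1 y1 z1 x2 y2 z2 x3 y3 z3 x4 y4 z4 : ℕ) : Bool :=
  p == 0 || Nat.ble 21 (3 * p + am x1 y1 z1 + am x2 y2 z2 + am x3 y3 z3 + am x4 y4 z4
    + (x1 + y1 + z1 + x2 + y2 + z2 + x3 + y3 + z3 + x4 + y4 + z4))

def all4 (g : ℕ → Bool) : Bool := g 0 && g 1 && g 2 && g 3

lemma all4_spec {g : ℕ → Bool} (h : all4 g = true) {x : ℕ} (hx : x ≤ 3) : g x = true := by
  simp only [all4, Bool.and_eq_true] at h
  interval_cases x
  exacts [h.1.1.1, h.1.1.2, h.1.2, h.2]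

def fin (x0 x1 x2 x3 x4 x5 x6 x7 x8 x9 x10 x11 x12 : ℕ) : Bool :=
  Nat.ble (x0 + x1 + x2 + x3 + x4 + x5 + x6 + x7 + x8 + x9 + x10 + x11 + x12) 13 &&
  Nat.ble 7 (x0 + x2 + x3 + x5 + x6 + x8 + x9 + x11 + x12) &&
  Nat.ble 7 (x1 + x2 + x3 + x7 + x8 + x9 + x10 + x11 + x12) &&
  Nat.ble 7 (x0 + x1 + x2 + x5 + x6 + x7 + x8 + x10 + x12) &&
  Nat.ble 7 (x0 + x1 + x3 + x5 + x6 + x7 + x9 + x10 + x11) &&
  Nat.ble 7 (x4 + x5 + x6 + x7 + x8 + x9 + x10 + x11 + x12) &&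
  Nat.ble 7 (x0 + x2 + x3 + x4 + x5 + x7 + x8 + x10 + x11) &&
  Nat.ble 7 (x0 + x2 + x3 + x4 + x6 + x7 + x9 + x10 + x12) &&
  Nat.ble 7 (x1 + x2 + x3 + x4 + x5 + x6 + x7 + x8 + x9) &&
  Nat.ble 7 (x0 + x1 + x2 + x4 + x5 + x7 + x9 + x11 + x12) &&
  Nat.ble 7 (x0 + x1 + x3 + x4 + x6 + x7 + x8 + x11 + x12) &&
  Nat.ble 7 (x1 + x2 + x3 + x4 + x5 + x6 + x10 + x11 + x12) &&
  Nat.ble 7 (x0 + x1 + x3 + x4 + x5 + x8 + x9 + x10 + x12) &&
  Nat.ble 7 (x0 + x1 + x2 + x4 + x6 + x8 + x9 + x10 + x11) &&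
  pc x0 x4 x5 x6 x1 x2 x3 x10 x11 x12 x7 x8 x9 &&
  pc x1 x4 x7 x10 x0 x2 x3 x6 x9 x12 x5 x8 x11 &&
  pc x2 x4 x8 x12 x0 x1 x3 x5 x9 x10 x6 x7 x11 &&
  pc x3 x4 x9 x11 x0 x1 x2 x6 x8 x10 x5 x7 x12 &&
  pc x4 x1 x7 x10 x0 x5 x6 x3 x9 x11 x2 x8 x12 &&
  pc x5 x0 x4 x6 x1 x8 x11 x2 x9 x10 x3 x7 x12 &&
  pc x6 x0 x4 x5 x1 x9 x12 x3 x8 x10 x2 x7 x11 &&
  pc x7 x1 x4 x10 x0 x8 x9 x2 x6 x11 x3 x5 x12 &&
  pc x8 x2 x4 x12 x1 x5 x11 x3 x6 x10 x0 x7 x9 &&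
  pc x9 x3 x4 x11 x1 x6 x12 x2 x5 x10 x0 x7 x8 &&
  pc x10 x1 x4 x7 x0 x11 x12 x3 x6 x8 x2 x5 x9 &&
  pc x11 x3 x4 x9 x1 x5 x8 x0 x10 x12 x2 x6 x7 &&
  pc x12 x2 x4 x8 x1 x6 x9 x0 x10 x11 x3 x5 x7

def search : Bool :=
  all4 fun x0 =>
  all4 fun x1 =>
  all4 fun x2 =>
  all4 fun x3 => !(loc x0 x1 x2 x3) ||
  all4 fun x4 =>
  all4 fun x5 =>
  all4 fun x6 => !(loc x0 x4 x5 x6) ||
  all4 fun x7 =>
  all4 fun x10 => !(loc x1 x4 x7 x10) ||
  all4 fun x8 => !(loc x3 x6 x8 x10) ||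
  all4 fun x9 => !(loc x2 x5 x9 x10) || !(loc x0 x7 x8 x9) ||
  all4 fun x11 => !(loc x3 x4 x9 x11) || !(loc x1 x5 x8 x11) || !(loc x2 x6 x7 x11) ||
  all4 fun x12 => !(loc x2 x4 x8 x12) || !(loc x1 x6 x9 x12) || !(loc x0 x10 x11 x12) ||
    !(loc x3 x5 x7 x12) || !(fin x0 x1 x2 x3 x4 x5 x6 x7 x8 x9 x10 x11 x12)

theorem search_true : search = true := by decide +kernel

lemma am_le (x y z : ℕ) : 2 * am x y z ≤ x + y + z := by unfold am; omega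

lemma pc_lp {p x1 y1 z1 x2 y2 z2 x3 y3 z3 x4 y4 z4 : ℕ}
    (h : pc p x1 y1 z1 x2 y2 z2 x3 y3 z3 x4 y4 z4 = true)
    (hs : p + x1 + y1 + z1 + x2 + y2 + z2 + x3 + y3 + z3 + x4 + y4 + z4 ≤ 13) :
    lp p x1 y1 z1 = true ∧ lp p x2 y2 z2 = true ∧ lp p x3 y3 z3 = true ∧
      lp p x4 y4 z4 = true := by
  have h1 := am_le x1 y1 z1
  have h2 := am_le x2 y2 z2
  have h3 := am_le x3 y3 z3
  have h4 := am_le x4 y4 z4
  simp only [pc, lp, Bool.or_eq_true, beq_iff_eq, Nat.ble_eq] at h ⊢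
  omega

theorem not_fin (x0 x1 x2 x3 x4 x5 x6 x7 x8 x9 x10 x11 x12 : ℕ) :
    fin x0 x1 x2 x3 x4 x5 x6 x7 x8 x9 x10 x11 x12 = false := by
  by_contra hne
  have hf : fin x0 x1 x2 x3 x4 x5 x6 x7 x8 x9 x10 x11 x12 = true := by simpa using hne
  have hf' := hf
  simp only [fin, Bool.and_eq_true, Nat.ble_eq, and_assoc] at hf'
  obtain ⟨hN, l0, l1, l2, l3, l4, l5, l6, l7, l8, l9, l10, l11, l12,
    p0, p1, p2, p3, p4, p5, p6, p7, p8, p9, p10, p11, p12⟩ := hf'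
  have w0 : x1 + x4 + x7 + x10 ≤ 6 := by clear * - hN l0; omega
  have w1 : x0 + x4 + x5 + x6 ≤ 6 := by clear * - hN l1; omega
  have w2 : x3 + x4 + x9 + x11 ≤ 6 := by clear * - hN l2; omega
  have w3 : x2 + x4 + x8 + x12 ≤ 6 := by clear * - hN l3; omega
  have w4 : x0 + x1 + x2 + x3 ≤ 6 := by clear * - hN l4; omega
  have w5 : x1 + x6 + x9 + x12 ≤ 6 := by clear * - hN l5; omega
  have w6 : x1 + x5 + x8 + x11 ≤ 6 := by clear * - hN l6; omega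
  have w7 : x0 + x10 + x11 + x12 ≤ 6 := by clear * - hN l7; omega
  have w8 : x3 + x6 + x8 + x10 ≤ 6 := by clear * - hN l8; omega
  have w9 : x2 + x5 + x9 + x10 ≤ 6 := by clear * - hN l9; omega
  have w10 : x0 + x7 + x8 + x9 ≤ 6 := by clear * - hN l10; omega
  have w11 : x2 + x6 + x7 + x11 ≤ 6 := by clear * - hN l11; omega
  have w12 : x3 + x5 + x7 + x12 ≤ 6 := by clear * - hN l12; omega
  have u0 : x0 ≤ 3 := by clear * - hN l1 l4 l7 l10; omega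
  have u1 : x1 ≤ 3 := by clear * - hN l0 l4 l5 l6; omega
  have u2 : x2 ≤ 3 := by clear * - hN l3 l4 l9 l11; omega
  have u3 : x3 ≤ 3 := by clear * - hN l2 l4 l8 l12; omega
  have u4 : x4 ≤ 3 := by clear * - hN l0 l1 l2 l3; omega
  have u5 : x5 ≤ 3 := by clear * - hN l1 l6 l9 l12; omega
  have u6 : x6 ≤ 3 := by clear * - hN l1 l5 l8 l11; omega
  have u7 : x7 ≤ 3 := by clear * - hN l0 l10 l11 l12; omega
  have u8 : x8 ≤ 3 := by clear * - hN l3 l6 l8 l10; omega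
  have u9 : x9 ≤ 3 := by clear * - hN l2 l5 l9 l10; omega
  have u10 : x10 ≤ 3 := by clear * - hN l0 l7 l8 l9; omega
  have u11 : x11 ≤ 3 := by clear * - hN l2 l6 l7 l11; omega
  have u12 : x12 ≤ 3 := by clear * - hN l3 l5 l7 l12; omega
  obtain ⟨a0, b0, c0, d0⟩ := pc_lp p0 (by clear * - hN; omega)
  obtain ⟨a1, b1, c1, d1⟩ := pc_lp p1 (by clear * - hN; omega)
  obtain ⟨a2, b2, c2, d2⟩ := pc_lp p2 (by clear * - hN; omega)
  obtain ⟨a3, b3, c3, d3⟩ := pc_lp p3 (by clear * - hN; omega)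
  obtain ⟨a4, b4, c4, d4⟩ := pc_lp p4 (by clear * - hN; omega)
  obtain ⟨a5, b5, c5, d5⟩ := pc_lp p5 (by clear * - hN; omega)
  obtain ⟨a6, b6, c6, d6⟩ := pc_lp p6 (by clear * - hN; omega)
  obtain ⟨a7, b7, c7, d7⟩ := pc_lp p7 (by clear * - hN; omega)
  obtain ⟨a8, b8, c8, d8⟩ := pc_lp p8 (by clear * - hN; omega)
  obtain ⟨a9, b9, c9, d9⟩ := pc_lp p9 (by clear * - hN; omega)
  obtain ⟨a10, b10, c10, d10⟩ := pc_lp p10 (by clear * - hN; omega)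
  obtain ⟨a11, b11, c11, d11⟩ := pc_lp p11 (by clear * - hN; omega)
  obtain ⟨a12, b12, c12, d12⟩ := pc_lp p12 (by clear * - hN; omega)
  clear p0 p1 p2 p3 p4 p5 p6 p7 p8 p9 p10 p11 p12
  have mk : ∀ {a b c d : ℕ}, a + b + c + d ≤ 6 → lp a b c d = true → lp b a c d = true →
      lp c a b d = true → lp d a b c = true → loc a b c d = true := by
    intro a b c d h h1 h2 h3 h4
    simp [loc, h, h1, h2, h3, h4]
  have L4 : loc x0 x1 x2 x3 = true := mk w4 b0 b1 b2 b3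
  have L1 : loc x0 x4 x5 x6 = true := mk w1 a0 b4 a5 a6
  have L0 : loc x1 x4 x7 x10 = true := mk w0 a1 a4 a7 a10
  have L8 : loc x3 x6 x8 x10 = true := mk w8 c3 c6 c8 c10
  have L9 : loc x2 x5 x9 x10 = true := mk w9 c2 c5 c9 d10
  have L10 : loc x0 x7 x8 x9 = true := mk w10 d0 b7 d8 d9
  have L2 : loc x3 x4 x9 x11 = true := mk w2 a3 c4 a9 a11
  have L6 : loc x1 x5 x8 x11 = true := mk w6 d1 b5 b8 b11
  have L11 : loc x2 x6 x7 x11 = true := mk w11 d2 d6 c7 d11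
  have L3 : loc x2 x4 x8 x12 = true := mk w3 a2 d4 a8 a12
  have L5 : loc x1 x6 x9 x12 = true := mk w5 c1 b6 b9 b12
  have L7 : loc x0 x10 x11 x12 = true := mk w7 c0 b10 c11 c12
  have L12 : loc x3 x5 x7 x12 = true := mk w12 d3 d5 d7 d12
  have s := search_true
  unfold search at s
  replace s := all4_spec s u0
  replace s := all4_spec s u1
  replace s := all4_spec s u2
  replace s := all4_spec s u3
  simp only [L4, Bool.not_true, Bool.false_or] at s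
  replace s := all4_spec s u4
  replace s := all4_spec s u5
  replace s := all4_spec s u6
  simp only [L1, Bool.not_true, Bool.false_or] at s
  replace s := all4_spec s u7
  replace s := all4_spec s u10
  simp only [L0, Bool.not_true, Bool.false_or] at s
  replace s := all4_spec s u8
  simp only [L8, Bool.not_true, Bool.false_or] at s
  replace s := all4_spec s u9
  simp only [L9, L10, Bool.not_true, Bool.false_or] at s
  replace s := all4_spec s u11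
  simp only [L2, L6, L11, Bool.not_true, Bool.false_or] at s
  replace s := all4_spec s u12
  simp only [L3, L5, L7, L12, hf, Bool.not_true, Bool.false_or] at s
  exact absurd s (by decide)

end Pool.Agent.Lib.MP_821f63_lc
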