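import Mathlib
import Pool.Agent.Lib.MP_821f63_lc.Defs
import Pool.Agent.Lib.MP_821f63_lc.Search

/-! No ternary code of dimension 3 and length at most 13 has the 7-all-symbol PIR property. -/

namespace Pool.Agent.Lib.MP_821f63_lc

open Finset

/-- index of the projective point of a vector; 13 for the zero vector -/
def cls3 (a b c : ZMod 3) : ℕ :=
  [13, 0, 0, 1, 2, 3, 1, 3, 2, 4, 5, 6, 7, 8, 9, 10, 11, 12, 4, 6, 5, 10, 12, 11, 7, 9, 8].getD
    (a.val + 3 * b.val + 9 * c.val) 13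

def cls (v : Fin 3 → ZMod 3) : ℕ := cls3 (v 0) (v 1) (v 2)

def ptsT (h : ℕ) : ZMod 3 × ZMod 3 × ZMod 3 :=
  [(1, 0, 0), (0, 1, 0), (1, 1, 0), (2, 1, 0), (0, 0, 1), (1, 0, 1), (2, 0, 1), (0, 1, 1),
    (1, 1, 1), (2, 1, 1), (0, 2, 1), (1, 2, 1), (2, 2, 1)].getD h (1, 0, 0)

def outT (h : ℕ) : List ℕ :=
  [[0, 2, 3, 5, 6, 8, 9, 11, 12], [1, 2, 3, 7, 8, 9, 10, 11, 12], [0, 1, 2, 5, 6, 7, 8, 10, 12],
    [0, 1, 3, 5, 6, 7, 9, 10, 11], [4, 5, 6, 7, 8, 9, 10, 11, 12], [0, 2, 3, 4, 5, 7, 8, 10, 11],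
    [0, 2, 3, 4, 6, 7, 9, 10, 12], [1, 2, 3, 4, 5, 6, 7, 8, 9], [0, 1, 2, 4, 5, 7, 9, 11, 12],
    [0, 1, 3, 4, 6, 7, 8, 11, 12], [1, 2, 3, 4, 5, 6, 10, 11, 12], [0, 1, 3, 4, 5, 8, 9, 10, 12],
    [0, 1, 2, 4, 6, 8, 9, 10, 11]].getD h []

def TT (p i : ℕ) : ℕ × ℕ × ℕ :=
  ([[(4, 5, 6), (1, 2, 3), (10, 11, 12), (7, 8, 9)], [(4, 7, 10), (0, 2, 3), (6, 9, 12), (5, 8, 11)],
    [(4, 8, 12), (0, 1, 3), (5, 9, 10), (6, 7, 11)], [(4, 9, 11), (0, 1, 2), (6, 8, 10), (5, 7, 12)],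
    [(1, 7, 10), (0, 5, 6), (3, 9, 11), (2, 8, 12)], [(0, 4, 6), (1, 8, 11), (2, 9, 10), (3, 7, 12)],
    [(0, 4, 5), (1, 9, 12), (3, 8, 10), (2, 7, 11)], [(1, 4, 10), (0, 8, 9), (2, 6, 11), (3, 5, 12)],
    [(2, 4, 12), (1, 5, 11), (3, 6, 10), (0, 7, 9)], [(3, 4, 11), (1, 6, 12), (2, 5, 10), (0, 7, 8)],
    [(1, 4, 7), (0, 11, 12), (3, 6, 8), (2, 5, 9)], [(3, 4, 9), (1, 5, 8), (0, 10, 12), (2, 6, 7)],
    [(2, 4, 8), (1, 6, 9), (0, 10, 11), (3, 5, 7)]].getD p []).getD i (0, 0, 0)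

def pairIn (T : ℕ × ℕ × ℕ) (a b : ℕ) : Bool :=
  (a == T.1 && (b == T.2.1 || b == T.2.2)) || (a == T.2.1 && (b == T.1 || b == T.2.2)) ||
    (a == T.2.2 && (b == T.1 || b == T.2.1))

lemma cls3_zero : ∀ a b c : ZMod 3, (cls3 a b c = 13 ∧ a = 0 ∧ b = 0 ∧ c = 0) ∨
    (cls3 a b c < 13 ∧ ¬ (a = 0 ∧ b = 0 ∧ c = 0)) := by decide +kernel

lemma fact_line : ∀ h < 13, ∀ a b c : ZMod 3,
    (ptsT h).1 * a + (ptsT h).2.1 * b + (ptsT h).2.2 * c ≠ 0 → cls3 a b c ∈ outT h := by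
  decide +kernel

lemma pts_ne : ∀ h < 13, ¬ ((ptsT h).1 = 0 ∧ (ptsT h).2.1 = 0 ∧ (ptsT h).2.2 = 0) := by
  decide +kernel

lemma fact_pair : ∀ a b c a' b' c' α β : ZMod 3,
    cls3 (α * a + β * a') (α * b + β * b') (α * c + β * c') = 13 ∨
    cls3 a b c = cls3 (α * a + β * a') (α * b + β * b') (α * c + β * c') ∨
    cls3 a' b' c' = cls3 (α * a + β * a') (α * b + β * b') (α * c + β * c') ∨
    ∃ i < 4, pairIn (TT (cls3 (α * a + β * a') (α * b + β * b') (α * c + β * c')) i)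
      (cls3 a b c) (cls3 a' b' c') = true := by
  decide +kernel

lemma sum_list_le {r : Fin 7 → ℕ → ℕ} {f : ℕ → ℕ} (h : ∀ Q, ∑ a, r a Q ≤ f Q) (l : List ℕ) :
    ∑ a, (l.map (r a)).sum ≤ (l.map f).sum := by
  induction l with
  | nil => simp
  | cons x l ih =>
    simp only [List.map_cons, List.sum_cons, Finset.sum_add_distrib]
    exact Nat.add_le_add (h x) ih

def two (g : ℕ → ℕ) (x y z : ℕ) : Prop :=
  (1 ≤ g x ∧ 1 ≤ g y) ∨ (1 ≤ g x ∧ 1 ≤ g z) ∨ (1 ≤ g y ∧ 1 ≤ g z)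

lemma point_cond {r : Fin 7 → ℕ → ℕ} {f : ℕ → ℕ} (h : ∀ Q, ∑ a, r a Q ≤ f Q)
    (p x1 y1 z1 x2 y2 z2 x3 y3 z3 x4 y4 z4 : ℕ)
    (hc : ∀ a, 1 ≤ r a p ∨
      3 ≤ r a x1 + r a y1 + r a z1 + r a x2 + r a y2 + r a z2 + r a x3 + r a y3 + r a z3
        + r a x4 + r a y4 + r a z4 ∨
      two (r a) x1 y1 z1 ∨ two (r a) x2 y2 z2 ∨ two (r a) x3 y3 z3 ∨ two (r a) x4 y4 z4) :
    pc (f p) (f x1) (f y1) (f z1) (f x2) (f y2) (f z2) (f x3) (f y3) (f z3)
      (f x4) (f y4) (f z4) = true := by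
  have hex : ∀ a, ∃ e0 e1 e2 e3 e4 e5 : ℕ, 1 ≤ e0 + e1 + e2 + e3 + e4 + e5 ∧ e0 ≤ r a p ∧
      (2 * e1 ≤ r a x1 + r a y1 + r a z1 ∧ e1 ≤ r a x1 + r a y1 ∧ e1 ≤ r a x1 + r a z1 ∧
        e1 ≤ r a y1 + r a z1) ∧
      (2 * e2 ≤ r a x2 + r a y2 + r a z2 ∧ e2 ≤ r a x2 + r a y2 ∧ e2 ≤ r a x2 + r a z2 ∧
        e2 ≤ r a y2 + r a z2) ∧
      (2 * e3 ≤ r a x3 + r a y3 + r a z3 ∧ e3 ≤ r a x3 + r a y3 ∧ e3 ≤ r a x3 + r a z3 ∧
        e3 ≤ r a y3 + r a z3) ∧
      (2 * e4 ≤ r a x4 + r a y4 + r a z4 ∧ e4 ≤ r a x4 + r a y4 ∧ e4 ≤ r a x4 + r a z4 ∧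
        e4 ≤ r a y4 + r a z4) ∧
      2 * (e1 + e2 + e3 + e4) + 3 * e5 ≤ r a x1 + r a y1 + r a z1 + r a x2 + r a y2 + r a z2
        + r a x3 + r a y3 + r a z3 + r a x4 + r a y4 + r a z4 := by
    intro a
    rcases hc a with h | h | h | h | h | h
    · exact ⟨1, 0, 0, 0, 0, 0, by omega⟩
    · exact ⟨0, 0, 0, 0, 0, 1, by omega⟩
    · exact ⟨0, 1, 0, 0, 0, 0, by unfold two at h; omega⟩
    · exact ⟨0, 0, 1, 0, 0, 0, by unfold two at h; omega⟩
    · exact ⟨0, 0, 0, 1, 0, 0, by unfold two at h; omega⟩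
    · exact ⟨0, 0, 0, 0, 1, 0, by unfold two at h; omega⟩
  choose e0 e1 e2 e3 e4 e5 he using hex
  have S : ∀ {u v : Fin 7 → ℕ}, (∀ a, u a ≤ v a) → ∑ a, u a ≤ ∑ a, v a :=
    fun h => Finset.sum_le_sum fun a _ => h a
  have t0 := S fun a => (he a).1
  have t1 := S fun a => (he a).2.1
  have a1 := S fun a => (he a).2.2.1.1
  have a2 := S fun a => (he a).2.2.1.2.1
  have a3 := S fun a => (he a).2.2.1.2.2.1
  have a4 := S fun a => (he a).2.2.1.2.2.2
  have b1 := S fun a => (he a).2.2.2.1.1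
  have b2 := S fun a => (he a).2.2.2.1.2.1
  have b3 := S fun a => (he a).2.2.2.1.2.2.1
  have b4 := S fun a => (he a).2.2.2.1.2.2.2
  have c1 := S fun a => (he a).2.2.2.2.1.1
  have c2 := S fun a => (he a).2.2.2.2.1.2.1
  have c3 := S fun a => (he a).2.2.2.2.1.2.2.1
  have c4 := S fun a => (he a).2.2.2.2.1.2.2.2
  have d1 := S fun a => (he a).2.2.2.2.2.1.1
  have d2 := S fun a => (he a).2.2.2.2.2.1.2.1
  have d3 := S fun a => (he a).2.2.2.2.2.1.2.2.1
  have d4 := S fun a => (he a).2.2.2.2.2.1.2.2.2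
  have t2 := S fun a => (he a).2.2.2.2.2.2
  simp only [Finset.sum_add_distrib, ← Finset.mul_sum, mul_add, Finset.sum_const,
    Finset.card_univ, Fintype.card_fin, smul_eq_mul] at *
  have q1 : ∑ a, e1 a ≤ am (f x1) (f y1) (f z1) := by
    have := h x1; have := h y1; have := h z1; unfold am; omega
  have q2 : ∑ a, e2 a ≤ am (f x2) (f y2) (f z2) := by
    have := h x2; have := h y2; have := h z2; unfold am; omega
  have q3 : ∑ a, e3 a ≤ am (f x3) (f y3) (f z3) := by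
    have := h x3; have := h y3; have := h z3; unfold am; omega
  have q4 : ∑ a, e4 a ≤ am (f x4) (f y4) (f z4) := by
    have := h x4; have := h y4; have := h z4; unfold am; omega
  have := h p
  have := h x1; have := h y1; have := h z1
  have := h x2; have := h y2; have := h z2
  have := h x3; have := h y3; have := h z3
  have := h x4; have := h y4; have := h z4
  clear a1 a2 a3 a4 b1 b2 b3 b4 c1 c2 c3 c4 d1 d2 d3 d4
  simp only [pc, Bool.or_eq_true, beq_iff_eq, Nat.ble_eq]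
  omega

variable {n : ℕ}

/-- number of columns with index in `R` and class `Q` -/
def cnt (G : Matrix (Fin 3) (Fin n) (ZMod 3)) (R : Finset (Fin n)) (Q : ℕ) : ℕ :=
  (R.filter fun j => cls (G.col j) = Q).card

lemma cnt_pos {G : Matrix (Fin 3) (Fin n) (ZMod 3)} {R : Finset (Fin n)} {j : Fin n} (hj : j ∈ R) :
    1 ≤ cnt G R (cls (G.col j)) :=
  Finset.card_pos.2 ⟨j, Finset.mem_filter.2 ⟨hj, rfl⟩⟩

lemma cnt_sum {G : Matrix (Fin 3) (Fin n) (ZMod 3)} {R : Fin 7 → Finset (Fin n)}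
    (hR : ∀ a b, a ≠ b → Disjoint (R a) (R b)) (Q : ℕ) :
    ∑ a, cnt G (R a) Q ≤ cnt G Finset.univ Q := by
  unfold cnt
  rw [← Finset.card_biUnion]
  · apply Finset.card_le_card
    intro j hj
    obtain ⟨a, -, ha⟩ := Finset.mem_biUnion.1 hj
    exact Finset.mem_filter.2 ⟨Finset.mem_univ _, (Finset.mem_filter.1 ha).2⟩
  · intro a _ b _ hab
    exact Finset.disjoint_filter_filter (hR a b hab)

lemma cnt_total (G : Matrix (Fin 3) (Fin n) (ZMod 3)) (R : Finset (Fin n)) :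
    ∑ Q ∈ Finset.range 13, cnt G R Q = (R.filter fun j => G.col j ≠ 0).card := by
  unfold cnt
  rw [← Finset.card_biUnion]
  · congr 1
    ext j
    simp only [Finset.mem_biUnion, Finset.mem_range, Finset.mem_filter]
    rcases cls3_zero (G.col j 0) (G.col j 1) (G.col j 2) with h | h
    · constructor
      · rintro ⟨Q, hQ, -, h2⟩
        unfold cls at h2
        omega
      · rintro ⟨-, h2⟩
        exfalso
        apply h2
        funext i
        fin_cases i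
        exacts [h.2.1, h.2.2.1, h.2.2.2]
    · constructor
      · rintro ⟨Q, hQ, h1, h2⟩
        refine ⟨h1, fun h0 => h.2 ?_⟩
        rw [h0]; simp
      · rintro ⟨h1, -⟩
        exact ⟨_, h.1, h1, rfl⟩
  · intro a _ b _ hab
    rw [Function.onFun, Finset.disjoint_left]
    intro j h1 h2
    exact hab ((Finset.mem_filter.1 h1).2.symm.trans (Finset.mem_filter.1 h2).2)

lemma two_of_pairIn {g : ℕ → ℕ} {T : ℕ × ℕ × ℕ} {a b : ℕ} (h : pairIn T a b = true)
    (ha : 1 ≤ g a) (hb : 1 ≤ g b) : two g T.1 T.2.1 T.2.2 := by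
  simp only [pairIn, Bool.or_eq_true, Bool.and_eq_true, beq_iff_eq] at h
  unfold two
  rcases h with (⟨rfl, rfl | rfl⟩ | ⟨rfl, rfl | rfl⟩) | ⟨rfl, rfl | rfl⟩ <;> tauto

lemma rec_cases {G : Matrix (Fin 3) (Fin n) (ZMod 3)} {R : Finset (Fin n)} {w : Fin 3 → ZMod 3}
    (hw : cls w < 13) (h : w ∈ Submodule.span (ZMod 3) (G.col '' (R : Set (Fin n)))) :
    1 ≤ cnt G R (cls w) ∨ 3 ≤ ∑ Q ∈ Finset.range 13, cnt G R Q ∨
      ∃ i < 4, two (cnt G R) (TT (cls w) i).1 (TT (cls w) i).2.1 (TT (cls w) i).2.2 := by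
  rw [cnt_total]
  set R' := R.filter fun j => G.col j ≠ 0 with hR'
  by_cases h3 : 3 ≤ R'.card
  · exact Or.inr (Or.inl h3)
  have hw0 : w ≠ 0 := by
    intro h0
    rw [h0] at hw
    revert hw
    decide
  have hspan : w ∈ Submodule.span (ZMod 3) (G.col '' (R' : Set (Fin n))) := by
    refine (Submodule.span_le.2 ?_) h
    rintro _ ⟨j, hj, rfl⟩
    by_cases h0 : G.col j = 0
    · rw [h0]; exact Submodule.zero_mem _
    · exact Submodule.subset_span ⟨j, by simp [hR', h0]; exact hj, rfl⟩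
  have hex : ∃ j1 ∈ R, ∃ j2 ∈ R, R' ⊆ {j1, j2} := by
    have : R'.card = 0 ∨ R'.card = 1 ∨ R'.card = 2 := by omega
    rcases this with h0 | h0 | h0
    · rw [Finset.card_eq_zero] at h0
      rw [h0] at hspan
      simp at hspan
      exact absurd hspan hw0
    · obtain ⟨j, hj⟩ := Finset.card_eq_one.1 h0
      have : j ∈ R := (Finset.mem_filter.1 (show j ∈ R' by rw [hj]; simp)).1
      exact ⟨j, this, j, this, by rw [hj]; simp⟩
    · obtain ⟨j, j', -, hj⟩ := Finset.card_eq_two.1 h0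
      have h1 : j ∈ R := (Finset.mem_filter.1 (show j ∈ R' by rw [hj]; simp)).1
      have h2 : j' ∈ R := (Finset.mem_filter.1 (show j' ∈ R' by rw [hj]; simp)).1
      exact ⟨j, h1, j', h2, by rw [hj]⟩
  obtain ⟨j1, h1, j2, h2, hsub⟩ := hex
  have hspan2 : w ∈ Submodule.span (ZMod 3) {G.col j1, G.col j2} := by
    refine (Submodule.span_mono ?_) hspan
    rintro _ ⟨j, hj, rfl⟩
    have := hsub hj
    simp only [Finset.mem_insert, Finset.mem_singleton] at this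
    rcases this with rfl | rfl <;> simp
  obtain ⟨α, β, hαβ⟩ := Submodule.mem_span_pair.1 hspan2
  have hc : cls w = cls3 (α * G.col j1 0 + β * G.col j2 0) (α * G.col j1 1 + β * G.col j2 1)
      (α * G.col j1 2 + β * G.col j2 2) := by
    rw [← hαβ]; rfl
  have := fact_pair (G.col j1 0) (G.col j1 1) (G.col j1 2) (G.col j2 0) (G.col j2 1) (G.col j2 2)
    α β
  rw [← hc] at this
  have p1 : 1 ≤ cnt G R (cls (G.col j1)) := cnt_pos h1
  have p2 : 1 ≤ cnt G R (cls (G.col j2)) := cnt_pos h2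
  rcases this with h | h | h | ⟨i, hi, h⟩
  · omega
  · left; rw [← h]; exact p1
  · left; rw [← h]; exact p2
  · exact Or.inr (Or.inr ⟨i, hi, two_of_pairIn h p1 p2⟩)

lemma range_sum (g : ℕ → ℕ) : ∀ p < 13, ∑ Q ∈ Finset.range 13, g Q = g p +
    (g (TT p 0).1 + g (TT p 0).2.1 + g (TT p 0).2.2 + g (TT p 1).1 + g (TT p 1).2.1
      + g (TT p 1).2.2 + g (TT p 2).1 + g (TT p 2).2.1 + g (TT p 2).2.2 + g (TT p 3).1
      + g (TT p 3).2.1 + g (TT p 3).2.2) := by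
  intro p hp
  simp only [Finset.sum_range_succ, Finset.sum_range_zero]
  interval_cases p <;> simp only [TT, List.getD_cons_succ, List.getD_cons_zero] <;> omega

theorem no_short_code (hn : n ≤ 13) (G : Matrix (Fin 3) (Fin n) (ZMod 3)) (hG : G.rank = 3)
    (h : ∀ j, Serves G (fun _ : Fin 7 => G.col j)) : False := by
  set f : ℕ → ℕ := cnt G Finset.univ with hf
  have hN : ∑ Q ∈ Finset.range 13, f Q ≤ 13 := by
    rw [hf, cnt_total]
    exact (Finset.card_le_univ _).trans (by simpa using hn)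
  have hP : ∀ p < 13, pc (f p) (f (TT p 0).1) (f (TT p 0).2.1) (f (TT p 0).2.2)
      (f (TT p 1).1) (f (TT p 1).2.1) (f (TT p 1).2.2) (f (TT p 2).1) (f (TT p 2).2.1)
      (f (TT p 2).2.2) (f (TT p 3).1) (f (TT p 3).2.1) (f (TT p 3).2.2) = true := by
    intro p hp
    by_cases h0 : f p = 0
    · simp [pc, h0]
    obtain ⟨j, hj⟩ := Finset.card_pos.1 (Nat.pos_of_ne_zero h0)
    have hjp : cls (G.col j) = p := (Finset.mem_filter.1 hj).2
    obtain ⟨R, hR, hs⟩ := h j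
    apply point_cond (r := fun a => cnt G (R a)) (cnt_sum hR)
    intro a
    have := rec_cases (by rw [hjp]; exact hp) (hs a)
    rw [hjp, range_sum _ p hp] at this
    rcases this with h1 | h1 | ⟨i, hi, h1⟩
    · exact Or.inl h1
    · omega
    · have hi' : i = 0 ∨ i = 1 ∨ i = 2 ∨ i = 3 := by omega
      rcases hi' with rfl | rfl | rfl | rfl
      · exact Or.inr (Or.inr (Or.inl h1))
      · exact Or.inr (Or.inr (Or.inr (Or.inl h1)))
      · exact Or.inr (Or.inr (Or.inr (Or.inr (Or.inl h1))))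
      · exact Or.inr (Or.inr (Or.inr (Or.inr (Or.inr h1))))
  have htop : Submodule.span (ZMod 3) (Set.range G.col) = ⊤ := by
    apply Submodule.eq_top_of_finrank_eq
    rw [← Matrix.rank_eq_finrank_span_cols, hG]
    simp
  have hL : ∀ l < 13, 7 ≤ ((outT l).map f).sum := by
    intro l hl
    set φ : (Fin 3 → ZMod 3) →ₗ[ZMod 3] ZMod 3 :=
      (ptsT l).1 • LinearMap.proj 0 + (ptsT l).2.1 • LinearMap.proj 1
        + (ptsT l).2.2 • LinearMap.proj 2 with hφ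
    have hφa : ∀ v, φ v = (ptsT l).1 * v 0 + (ptsT l).2.1 * v 1 + (ptsT l).2.2 * v 2 := by
      intro v; simp [hφ]
    have hker : ∀ (S : Set (Fin n)) (v : Fin 3 → ZMod 3),
        v ∈ Submodule.span (ZMod 3) (G.col '' S) → φ v ≠ 0 → ∃ j ∈ S, φ (G.col j) ≠ 0 := by
      intro S v hv hv0
      by_contra hcon
      push Not at hcon
      apply hv0
      have : Submodule.span (ZMod 3) (G.col '' S) ≤ LinearMap.ker φ := by
        rw [Submodule.span_le]
        rintro _ ⟨j, hj, rfl⟩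
        exact hcon j hj
      exact this hv
    have hex : ∃ v, φ v ≠ 0 := by
      by_contra hcon
      push Not at hcon
      apply pts_ne l hl
      have e0 := hcon (Pi.single 0 1)
      have e1 := hcon (Pi.single 1 1)
      have e2 := hcon (Pi.single 2 1)
      rw [hφa] at e0 e1 e2
      simp at e0 e1 e2
      exact ⟨e0, e1, e2⟩
    obtain ⟨v, hv⟩ := hex
    obtain ⟨j0, -, hj0⟩ := hker Set.univ v (by rw [Set.image_univ, htop]; trivial) hv
    obtain ⟨R, hR, hs⟩ := h j0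
    have h1 : ∀ a, 1 ≤ ((outT l).map (cnt G (R a))).sum := by
      intro a
      obtain ⟨j, hj, hj1⟩ := hker _ _ (hs a) hj0
      rw [hφa] at hj1
      have hm : cls (G.col j) ∈ outT l := fact_line l hl _ _ _ hj1
      exact (cnt_pos hj).trans (List.le_sum_of_mem (List.mem_map_of_mem hm))
    have h2 := sum_list_le (r := fun a => cnt G (R a)) (cnt_sum hR) (outT l)
    have h3 : ∑ _a : Fin 7, 1 ≤ ∑ a, ((outT l).map (cnt G (R a))).sum :=
      Finset.sum_le_sum fun a _ => h1 a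
    simp only [Finset.sum_const, Finset.card_univ, Fintype.card_fin, smul_eq_mul] at h3
    exact le_trans h3 h2
  have hfin := not_fin (f 0) (f 1) (f 2) (f 3) (f 4) (f 5) (f 6) (f 7) (f 8) (f 9) (f 10) (f 11)
    (f 12)
  simp only [Finset.sum_range_succ, Finset.sum_range_zero] at hN
  have l0 := hL 0 (by norm_num)
  have l1 := hL 1 (by norm_num)
  have l2 := hL 2 (by norm_num)
  have l3 := hL 3 (by norm_num)
  have l4 := hL 4 (by norm_num)
  have l5 := hL 5 (by norm_num)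
  have l6 := hL 6 (by norm_num)
  have l7 := hL 7 (by norm_num)
  have l8 := hL 8 (by norm_num)
  have l9 := hL 9 (by norm_num)
  have l10 := hL 10 (by norm_num)
  have l11 := hL 11 (by norm_num)
  have l12 := hL 12 (by norm_num)
  have p0 := hP 0 (by norm_num)
  have p1 := hP 1 (by norm_num)
  have p2 := hP 2 (by norm_num)
  have p3 := hP 3 (by norm_num)
  have p4 := hP 4 (by norm_num)
  have p5 := hP 5 (by norm_num)
  have p6 := hP 6 (by norm_num)
  have p7 := hP 7 (by norm_num)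
  have p8 := hP 8 (by norm_num)
  have p9 := hP 9 (by norm_num)
  have p10 := hP 10 (by norm_num)
  have p11 := hP 11 (by norm_num)
  have p12 := hP 12 (by norm_num)
  simp only [outT, TT, List.getD_cons_succ, List.getD_cons_zero, List.map_cons, List.map_nil,
    List.sum_cons, List.sum_nil] at l0 l1 l2 l3 l4 l5 l6 l7 l8 l9 l10 l11 l12 p0 p1 p2 p3 p4 p5 p6 p7 p8 p9 p10 p11 p12
  have : fin (f 0) (f 1) (f 2) (f 3) (f 4) (f 5) (f 6) (f 7) (f 8) (f 9) (f 10) (f 11)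
      (f 12) = true := by
    simp only [fin, Bool.and_eq_true, Nat.ble_eq, p0, p1, p2, p3, p4, p5, p6, p7, p8, p9, p10,
      p11, p12, and_true]
    simp only [and_assoc]
    refine ⟨?_, ?_, ?_, ?_, ?_, ?_, ?_, ?_, ?_, ?_, ?_, ?_, ?_, ?_⟩
    · clear * - hN; omega
    · clear * - l0; omega
    · clear * - l1; omega
    · clear * - l2; omega
    · clear * - l3; omega
    · clear * - l4; omega
    · clear * - l5; omega
    · clear * - l6; omega
    · clear * - l7; omega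
    · clear * - l8; omega
    · clear * - l9; omega
    · clear * - l10; omega
    · clear * - l11; omega
    · clear * - l12; omega
  rw [this] at hfin
  exact Bool.noConfusion hfin

end Pool.Agent.Lib.MP_821f63_lc
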