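import Mathlib
import Pool.Agent.Lib.MP_821f63_lc.Defs

/-! Explicit ternary batch codes of dimension three. -/

namespace Pool.Agent.Lib.MP_821f63_lc

variable {n : ℕ}

def msk (T : Fin n × Fin n × Fin n) : ℕ := 2 ^ T.1.val ||| 2 ^ T.2.1.val ||| 2 ^ T.2.2.val

def tset (T : Fin n × Fin n × Fin n) : Finset (Fin n) := {T.1, T.2.1, T.2.2}

lemma testBit_msk (T : Fin n × Fin n × Fin n) (j : Fin n) (hj : j ∈ tset T) :
    (msk T).testBit j.val = true := by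
  simp only [tset, Finset.mem_insert, Finset.mem_singleton] at hj
  rcases hj with rfl | rfl | rfl <;> simp [msk]

def srv (rc : Fin n → List (Fin n × Fin n × Fin n)) : List (Fin n) → ℕ → Bool
  | [], _ => true
  | p :: l, u => (rc p).any fun T => (msk T &&& u == 0) && srv rc l (msk T ||| u)

lemma srv_spec (rc : Fin n → List (Fin n × Fin n × Fin n)) :
    ∀ (t : ℕ) (s : Fin t → Fin n) (u : ℕ), srv rc (List.ofFn s) u = true →
      ∃ T : Fin t → Fin n × Fin n × Fin n, (∀ a, T a ∈ rc (s a)) ∧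
        (∀ a, ∀ j ∈ tset (T a), u.testBit j.val = false) ∧
        ∀ a b, a ≠ b → Disjoint (tset (T a)) (tset (T b)) := by
  intro t
  induction t with
  | zero => intro s u _; exact ⟨Fin.elim0, fun a => a.elim0, fun a => a.elim0, fun a => a.elim0⟩
  | succ t ih =>
    intro s u h
    rw [List.ofFn_succ, srv, List.any_eq_true] at h
    obtain ⟨T0, hT0, h⟩ := h
    simp only [Bool.and_eq_true, beq_iff_eq] at h
    obtain ⟨T, h1, h2, h3⟩ := ih (fun i => s i.succ) _ h.2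
    have h0 : ∀ j ∈ tset T0, u.testBit j.val = false := by
      intro j hj
      have := congrArg (fun x => Nat.testBit x j.val) h.1
      simpa [Nat.testBit_and, testBit_msk T0 j hj] using this
    have h4 : ∀ a, Disjoint (tset T0) (tset (T a)) := by
      intro a
      rw [Finset.disjoint_left]
      intro j hj hj'
      have := h2 a j hj'
      simp [Nat.testBit_or, testBit_msk T0 j hj] at this
    refine ⟨Fin.cons T0 T, ?_, ?_, ?_⟩
    · intro a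
      refine Fin.cases ?_ (fun a => ?_) a
      · simpa using hT0
      · simpa using h1 a
    · intro a
      refine Fin.cases ?_ (fun a => ?_) a
      · simpa using h0
      · intro j hj
        have := h2 a j (by simpa using hj)
        simp only [Nat.testBit_or, Bool.or_eq_false_iff] at this
        exact this.2
    · intro a b
      refine Fin.cases ?_ (fun a => ?_) a <;> refine Fin.cases ?_ (fun b => ?_) b <;> intro hab
      · exact absurd rfl hab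
      · simpa using h4 b
      · simpa using (h4 a).symm
      · simpa using h3 a b (fun h => hab (by rw [h]))

lemma serves_of_srv {t : ℕ} (G : Matrix (Fin 3) (Fin n) (ZMod 3))
    (rc : Fin n → List (Fin n × Fin n × Fin n))
    (hrc : ∀ p, ∀ T ∈ rc p, ∃ α β γ : ZMod 3, ∀ i, G i p = α * G i T.1 + β * G i T.2.1
      + γ * G i T.2.2)
    (s : Fin t → Fin n) (h : srv rc (List.ofFn s) 0 = true) :
    Serves G (fun a => G.col (s a)) := by
  obtain ⟨T, h1, -, h3⟩ := srv_spec rc t s 0 h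
  refine ⟨fun a => tset (T a), h3, fun a => ?_⟩
  obtain ⟨α, β, γ, h⟩ := hrc _ _ (h1 a)
  have : G.col (s a) = α • G.col (T a).1 + β • G.col (T a).2.1 + γ • G.col (T a).2.2 := by
    funext i
    simpa using h i
  show G.col (s a) ∈ _
  rw [this]
  refine Submodule.add_mem _ (Submodule.add_mem _ ?_ ?_) ?_ <;>
    exact Submodule.smul_mem _ _ (Submodule.subset_span ⟨_, by simp [tset], rfl⟩)

lemma rank_three (G : Matrix (Fin 3) (Fin n) (ZMod 3)) (H : Matrix (Fin n) (Fin 3) (ZMod 3))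
    (h : G * H = 1) : G.rank = 3 := by
  apply le_antisymm
  · simpa using G.rank_le_height
  · have := Matrix.rank_mul_le_left G H
    rw [h, Matrix.rank_one] at this
    simpa using this

/-- the affine plane of order three -/
def G9 : Matrix (Fin 3) (Fin 9) (ZMod 3) :=
  !![1, 1, 1, 1, 1, 1, 1, 1, 1; 0, 0, 0, 1, 1, 1, 2, 2, 2; 0, 1, 2, 0, 1, 2, 0, 1, 2]

def H9 : Matrix (Fin 9) (Fin 3) (ZMod 3) :=
  !![1, 2, 2; 0, 0, 1; 0, 0, 0; 0, 1, 0; 0, 0, 0; 0, 0, 0; 0, 0, 0; 0, 0, 0; 0, 0, 0]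

def rc9 : Fin 9 → List (Fin 9 × Fin 9 × Fin 9) :=
  ![[(0, 0, 0), (1, 2, 2), (3, 6, 6), (4, 8, 8), (5, 7, 7), (1, 3, 4), (1, 3, 5), (1, 3, 7),
     (1, 4, 5), (1, 4, 6), (1, 5, 8), (1, 6, 7), (1, 6, 8), (1, 7, 8), (2, 3, 4), (2, 3, 5),
     (2, 3, 8), (2, 4, 5), (2, 4, 7), (2, 5, 6), (2, 6, 7), (2, 6, 8), (2, 7, 8), (3, 4, 7),
     (3, 5, 8), (3, 7, 8), (4, 5, 6), (4, 6, 7), (5, 6, 8)],
    [(1, 1, 1), (0, 2, 2), (3, 8, 8), (4, 7, 7), (5, 6, 6), (0, 3, 4), (0, 3, 5), (0, 3, 7),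
     (0, 4, 5), (0, 4, 6), (0, 5, 8), (0, 6, 7), (0, 6, 8), (0, 7, 8), (2, 3, 4), (2, 3, 5),
     (2, 3, 6), (2, 4, 5), (2, 4, 8), (2, 5, 7), (2, 6, 7), (2, 6, 8), (2, 7, 8), (3, 4, 6),
     (3, 5, 7), (3, 6, 7), (4, 5, 8), (4, 6, 8), (5, 7, 8)],
    [(2, 2, 2), (0, 1, 1), (3, 7, 7), (4, 6, 6), (5, 8, 8), (0, 3, 4), (0, 3, 5), (0, 3, 8),
     (0, 4, 5), (0, 4, 7), (0, 5, 6), (0, 6, 7), (0, 6, 8), (0, 7, 8), (1, 3, 4), (1, 3, 5),
     (1, 3, 6), (1, 4, 5), (1, 4, 8), (1, 5, 7), (1, 6, 7), (1, 6, 8), (1, 7, 8), (3, 4, 8),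
     (3, 5, 6), (3, 6, 8), (4, 5, 7), (4, 7, 8), (5, 6, 7)],
    [(3, 3, 3), (0, 6, 6), (1, 8, 8), (2, 7, 7), (4, 5, 5), (0, 1, 4), (0, 1, 5), (0, 1, 7),
     (0, 2, 4), (0, 2, 5), (0, 2, 8), (0, 4, 7), (0, 5, 8), (0, 7, 8), (1, 2, 4), (1, 2, 5),
     (1, 2, 6), (1, 4, 6), (1, 5, 7), (1, 6, 7), (2, 4, 8), (2, 5, 6), (2, 6, 8), (4, 6, 7),
     (4, 6, 8), (4, 7, 8), (5, 6, 7), (5, 6, 8), (5, 7, 8)],
    [(4, 4, 4), (0, 8, 8), (1, 7, 7), (2, 6, 6), (3, 5, 5), (0, 1, 3), (0, 1, 5), (0, 1, 6),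
     (0, 2, 3), (0, 2, 5), (0, 2, 7), (0, 3, 7), (0, 5, 6), (0, 6, 7), (1, 2, 3), (1, 2, 5),
     (1, 2, 8), (1, 3, 6), (1, 5, 8), (1, 6, 8), (2, 3, 8), (2, 5, 7), (2, 7, 8), (3, 6, 7),
     (3, 6, 8), (3, 7, 8), (5, 6, 7), (5, 6, 8), (5, 7, 8)],
    [(5, 5, 5), (0, 7, 7), (1, 6, 6), (2, 8, 8), (3, 4, 4), (0, 1, 3), (0, 1, 4), (0, 1, 8),
     (0, 2, 3), (0, 2, 4), (0, 2, 6), (0, 3, 8), (0, 4, 6), (0, 6, 8), (1, 2, 3), (1, 2, 4),
     (1, 2, 7), (1, 3, 7), (1, 4, 8), (1, 7, 8), (2, 3, 6), (2, 4, 7), (2, 6, 7), (3, 6, 7),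
     (3, 6, 8), (3, 7, 8), (4, 6, 7), (4, 6, 8), (4, 7, 8)],
    [(6, 6, 6), (0, 3, 3), (1, 5, 5), (2, 4, 4), (7, 8, 8), (0, 1, 4), (0, 1, 7), (0, 1, 8),
     (0, 2, 5), (0, 2, 7), (0, 2, 8), (0, 4, 5), (0, 4, 7), (0, 5, 8), (1, 2, 3), (1, 2, 7),
     (1, 2, 8), (1, 3, 4), (1, 3, 7), (1, 4, 8), (2, 3, 5), (2, 3, 8), (2, 5, 7), (3, 4, 7),
     (3, 4, 8), (3, 5, 7), (3, 5, 8), (4, 5, 7), (4, 5, 8)],
    [(7, 7, 7), (0, 5, 5), (1, 4, 4), (2, 3, 3), (6, 8, 8), (0, 1, 3), (0, 1, 6), (0, 1, 8),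
     (0, 2, 4), (0, 2, 6), (0, 2, 8), (0, 3, 4), (0, 3, 8), (0, 4, 6), (1, 2, 5), (1, 2, 6),
     (1, 2, 8), (1, 3, 5), (1, 3, 6), (1, 5, 8), (2, 4, 5), (2, 4, 8), (2, 5, 6), (3, 4, 6),
     (3, 4, 8), (3, 5, 6), (3, 5, 8), (4, 5, 6), (4, 5, 8)],
    [(8, 8, 8), (0, 4, 4), (1, 3, 3), (2, 5, 5), (6, 7, 7), (0, 1, 5), (0, 1, 6), (0, 1, 7),
     (0, 2, 3), (0, 2, 6), (0, 2, 7), (0, 3, 5), (0, 3, 7), (0, 5, 6), (1, 2, 4), (1, 2, 6),
     (1, 2, 7), (1, 4, 5), (1, 4, 6), (1, 5, 7), (2, 3, 4), (2, 3, 6), (2, 4, 7), (3, 4, 6),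
     (3, 4, 7), (3, 5, 6), (3, 5, 7), (4, 5, 6), (4, 5, 7)]]

lemma rc9_ok : ∀ p, ∀ T ∈ rc9 p, ∃ α β γ : ZMod 3, ∀ i, G9 i p = α * G9 i T.1 + β * G9 i T.2.1
    + γ * G9 i T.2.2 := by decide +kernel

lemma srv9 : ∀ a b : Fin 9, a ≤ b → ∀ c, b ≤ c → ∀ d, c ≤ d → ∀ e, d ≤ e →
    srv rc9 [a, b, c, d, e] 0 = true := by decide +kernel

lemma serves_perm {F : Type} [Field F] {k t : ℕ} {G : Matrix (Fin k) (Fin n) F}
    {v : Fin t → (Fin k → F)} (σ : Equiv.Perm (Fin t)) (h : Serves G (v ∘ σ)) : Serves G v := by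
  obtain ⟨R, h1, h2⟩ := h
  refine ⟨fun a => R (σ.symm a), fun a b hab => h1 _ _ (fun h => hab (σ.symm.injective h)),
    fun a => ?_⟩
  simpa using h2 (σ.symm a)

theorem batch9 (s : Fin 5 → Fin 9) : Serves G9 (fun a => G9.col (s a)) := by
  apply serves_perm (Tuple.sort s)
  have hm := Tuple.monotone_sort s
  apply serves_of_srv G9 rc9 rc9_ok (s ∘ Tuple.sort s)
  have := srv9 _ _ (hm (show (0 : Fin 5) ≤ 1 by decide)) _ (hm (show (1 : Fin 5) ≤ 2 by decide))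
    _ (hm (show (2 : Fin 5) ≤ 3 by decide)) _ (hm (show (3 : Fin 5) ≤ 4 by decide))
  simpa [List.ofFn_succ] using this

theorem rank9 : G9.rank = 3 := rank_three G9 H9 (by decide +kernel)

/-- the parity check code -/
def G4 : Matrix (Fin 3) (Fin 4) (ZMod 3) := !![1, 0, 0, 1; 0, 1, 0, 1; 0, 0, 1, 1]

def H4 : Matrix (Fin 4) (Fin 3) (ZMod 3) := !![1, 0, 0; 0, 1, 0; 0, 0, 1; 0, 0, 0]

def rc4 : Fin 4 → List (Fin 4 × Fin 4 × Fin 4) :=
  ![[(0, 0, 0), (1, 2, 3)], [(1, 1, 1), (0, 2, 3)], [(2, 2, 2), (0, 1, 3)], [(3, 3, 3), (0, 1, 2)]]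

lemma rc4_ok : ∀ p, ∀ T ∈ rc4 p, ∃ α β γ : ZMod 3, ∀ i, G4 i p = α * G4 i T.1 + β * G4 i T.2.1
    + γ * G4 i T.2.2 := by decide +kernel

lemma srv4 : ∀ a b : Fin 4, srv rc4 [a, b] 0 = true := by decide +kernel

theorem batch4 (s : Fin 2 → Fin 4) : Serves G4 (fun a => G4.col (s a)) := by
  apply serves_of_srv G4 rc4 rc4_ok s
  simpa [List.ofFn_succ] using srv4 (s 0) (s 1)

theorem rank4 : G4.rank = 3 := rank_three G4 H4 (by decide +kernel)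

/-- seven copies of the identity matrix -/
def G21 : Matrix (Fin 3) (Fin 21) (ZMod 3) := fun i j => if j.val % 3 = i.val then 1 else 0

def H21 : Matrix (Fin 21) (Fin 3) (ZMod 3) := fun j i => if j.val = i.val then 1 else 0

theorem rank21 : G21.rank = 3 := rank_three G21 H21 (by decide +kernel)

theorem batch21 (s : Fin 7 → Fin 21) : Serves G21 (fun a => G21.col (s a)) := by
  refine ⟨fun a => {⟨3 * a.val + (s a).val % 3, by omega⟩}, ?_, fun a => ?_⟩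
  · intro a b hab
    rw [Finset.disjoint_singleton]
    intro h
    apply hab
    have := congrArg Fin.val h
    simp only at this
    ext
    omega
  · apply Submodule.subset_span
    refine ⟨⟨3 * a.val + (s a).val % 3, by omega⟩, by simp, ?_⟩
    funext i
    simp [G21]

end Pool.Agent.Lib.MP_821f63_lc
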